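import Pool.Agent.Q20.EX.Stm2
import Pool.Agent.Q92.AR.All

/-!
# Generic lemmas: finiteness of ramification, inflation, assembly of `S_LOC`
-/

set_option autoImplicit false
set_option linter.unusedSectionVars false
set_option linter.deprecated false

namespace Pool.Agent.Q20.EX

open NumberField IsDedekindDomain Pool.Agent.Q5.BR Pool.Agent.Q92.AR Pool.Agent.Q125.AR

section
variable {F N : Type} [Field F] [NumberField F] [Field N] [NumberField N] [Algebra F N]

/-- only finitely many primes have nontrivial inertia groups -/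
theorem ram_finite : {w : HeightOneSpectrum (𝓞 N) | ∃ g : N ≃ₐ[F] N, g ≠ 1 ∧ Inert w g}.Finite := by
  have hfd : FiniteDimensional F N := Module.Finite.of_restrictScalars_finite ℚ F N
  have hfin : Finite (N ≃ₐ[F] N) := inferInstance
  have h1 : {w : HeightOneSpectrum (𝓞 N) | ∃ g : N ≃ₐ[F] N, g ≠ 1 ∧ Inert w g} ⊆
      ⋃ g : N ≃ₐ[F] N, {w | g ≠ 1 ∧ Inert w g} := by
    rintro w ⟨g, hg⟩
    exact Set.mem_iUnion.2 ⟨g, hg⟩
  refine (Set.finite_iUnion fun g => ?_).subset h1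
  by_cases hg : g = 1
  · refine Set.Finite.subset Set.finite_empty ?_
    rintro w ⟨h, -⟩
    exact h hg
  have hex : ∃ a : 𝓞 N, g (a : N) ≠ (a : N) := by
    by_contra hcon
    push Not at hcon
    apply hg
    ext x
    obtain ⟨a, b, hb, rfl⟩ := IsFractionRing.div_surjective (A := 𝓞 N) x
    rw [map_div₀]
    have e1 : g (algebraMap (𝓞 N) N a) = algebraMap (𝓞 N) N a := hcon a
    have e2 : g (algebraMap (𝓞 N) N b) = algebraMap (𝓞 N) N b := hcon b
    rw [e1, e2]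
    rfl
  obtain ⟨a, ha⟩ := hex
  have hga : IsIntegral ℤ (g (a : N) - (a : N)) :=
    IsIntegral.sub (a.isIntegral_coe.map (g.restrictScalars ℤ)) a.isIntegral_coe
  let c : 𝓞 N := ⟨g (a : N) - (a : N), hga⟩
  have hc : c ≠ 0 := fun h => ha (sub_eq_zero.1 (congrArg Subtype.val h))
  have hc' : Ideal.span {c} ≠ 0 := by
    intro h
    exact hc (Ideal.span_singleton_eq_bot.1 h)
  refine (Ideal.finite_factors hc').subset ?_
  rintro w ⟨-, h⟩
  have h2 := h a
  have h3 : w.valuation N (algebraMap (𝓞 N) N c) < 1 := h2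
  rw [HeightOneSpectrum.valuation_lt_one_iff_mem] at h3
  exact Ideal.dvd_span_singleton.2 h3

end

section
variable {F : Type} [Field F] [NumberField F]

theorem nat_val_le {N N' : ℕ} (h : N ∣ N') (v : HeightOneSpectrum (𝓞 F)) :
    v.valuation F (N' : F) ≤ v.valuation F (N : F) := by
  obtain ⟨k, rfl⟩ := h
  rw [Nat.cast_mul, map_mul]
  have h2 : v.valuation F (k : F) ≤ 1 := by
    have h3 := v.valuation_le_one (K := F) (k : 𝓞 F)
    simpa using h3
  exact mul_le_of_le_one_right' h2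

theorem nat_mem {N N' : ℕ} (h : N ∣ N') {v : HeightOneSpectrum (𝓞 F)} (hv : (N : 𝓞 F) ∈ v.asIdeal) :
    (N' : 𝓞 F) ∈ v.asIdeal := by
  obtain ⟨k, rfl⟩ := h
  rw [Nat.cast_mul]
  exact v.asIdeal.mul_mem_right _ hv

theorem Un.mono {N N' : ℕ} (h : N ∣ N') {x : Fˣ} (hx : Un N' x) : Un N x :=
  fun v hv => hx v (nat_mem h hv)

theorem CongAt.mono {A : Set (HeightOneSpectrum (𝓞 F))} {N N' : ℕ} (h : N ∣ N') {x : F}
    (hx : CongAt A N' x) : CongAt A N x :=
  fun v hv hN => (hx v hv (nat_mem h hN)).trans (nat_val_le h v)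

theorem TrivAt.mono {S : Set (HeightOneSpectrum (𝓞 F))} {N N' : ℕ} (h : N ∣ N')
    {χ : Dv F →+ Additive ℂˣ} (hχ : TrivAt S N χ) : TrivAt S N' χ :=
  fun x h1 h2 h3 => hχ x (h1.mono h) h2 (h3.mono h)

/-- units at `N` have divisors prime to `N` -/
theorem prin_mem {N : ℕ} {x : Fˣ} (hx : Un N x) : prin x ∈ Pr F N :=
  fun v hv => prin_eq_zero_of_valuation (hx v hv)

end

section
variable {F E M : Type} [Field F] [NumberField F] [Field E] [NumberField E] [Field M] [NumberField M]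
  [Algebra F E] [Algebra E M] [Algebra F M] [IsScalarTower F E M] [IsGalois F E] [IsGalois F M]

/-- Artin characters of inflated characters -/
theorem art_inf (ψ : (E ≃ₐ[F] E) →* ℂˣ) {N : ℕ} (hR : Ram F M N) {D : Dv F} (hD : D ∈ Pr F N) :
    art (ψ.comp (AlgEquiv.restrictNormalHom (K₁ := M) E)) D = art ψ D := by
  classical
  rw [art_eq_sum, art_eq_sum]
  refine Finset.sum_congr rfl fun v hv => ?_
  have hN : (N : 𝓞 F) ∉ v.asIdeal := by
    intro h
    exact (Finsupp.mem_support_iff.1 hv) (hD v h)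
  have hu : Unramified M v := by
    by_contra h
    exact hN (hR v h)
  have huE : Unramified E v := hu.sub
  have h2 : IsFrobenius v (AlgEquiv.restrictNormal (frob M v) E) :=
    Pool.Agent.Q225.AR.fr.1 F E M v (frob M v) (frob_spec v)
  have h3 := chi_frob huE (frob_spec (M := E) v) h2 ψ
  rw [h3]
  rfl

end

/-- the characters with given local components from `S_CHEV` and `S_EXI` -/
theorem loc (hC : ∀ (F : Type) [Field F] [NumberField F] (N0 : ℕ)
    (S : Set (HeightOneSpectrum (𝓞 F))) (θ : Dv F →+ Additive ℂˣ), N0 ≠ 0 → S.Finite →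
    (∀ x ∈ Ray F N0, θ (prin x) = 0) →
    ∃ (N : ℕ) (χ : Dv F →+ Additive ℂˣ), N ≠ 0 ∧ N0 ∣ N ∧ (∀ x ∈ Ray F N, χ (prin x) = 0) ∧
    (∀ x : Fˣ, Un N x → Pos (x : F) → CongAt Sᶜ N (x : F) → χ (prin x) = θ (prin x)) ∧
    ∀ x : Fˣ, Un N x → Pos (x : F) → CongAt (S ∪ (primesOf F N0)ᶜ) N (x : F) → χ (prin x) = 0)
    (hE : ∀ (F : Type) [Field F] [NumberField F] (N : ℕ) (χ : Dv F →+ Additive ℂˣ), N ≠ 0 →
    (∀ x ∈ Ray F N, χ (prin x) = 0) → IsArt N χ) : S_LOC := by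
  classical
  intro F M _ _ _ _ _ _ ψ S1 S2 hS1 hS2 hdis
  obtain ⟨Nr, hNr, hRam, hray⟩ := recip F M ψ
  -- an integer divisible by the primes of `S1` and `S2`
  let P : ℕ := ∏ v ∈ (hS1.union hS2).toFinset, Ideal.absNorm v.asIdeal
  have hP : P ≠ 0 := by
    refine Finset.prod_ne_zero_iff.2 fun v _ h => ?_
    exact v.ne_bot (Ideal.absNorm_eq_zero_iff.1 h)
  have hmem : ∀ v ∈ S1 ∪ S2, (P : 𝓞 F) ∈ v.asIdeal := by
    intro v hv
    have h1 : Ideal.absNorm v.asIdeal ∣ P :=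
      Finset.dvd_prod_of_mem _ ((hS1.union hS2).mem_toFinset.2 hv)
    exact nat_mem h1 (Ideal.absNorm_mem v.asIdeal)
  have hN0 : Nr * P ≠ 0 := mul_ne_zero hNr hP
  have hmem' : ∀ v ∈ S1 ∪ S2, ((Nr * P : ℕ) : 𝓞 F) ∈ v.asIdeal := fun v hv =>
    nat_mem (dvd_mul_left P Nr) (hmem v hv)
  obtain ⟨N, χ, hN, hdvd, h1, h2, h3⟩ := hC F (Nr * P) S1 (art ψ) hN0 hS1 fun x hx =>
    hray x (Ray_mono (dvd_mul_right Nr P) hx)
  obtain ⟨M', i1, i2, i3, i4, α, N', hN', hd', hR', hα⟩ := hE F N χ hN h1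
  have hdr : Nr ∣ N' := (dvd_mul_right Nr P).trans (hdvd.trans hd')
  have hd0 : Nr * P ∣ N' := hdvd.trans hd'
  refine ⟨M', i1, i2, i3, i4, α, N', hN', Ram_mono hdr hRam, hR', fun v hv => ?_, fun v hv => ?_,
    fun x hx => hray x (Ray_mono hdr hx), fun x hx => ?_, fun x a1 a2 a3 => ?_,
    fun x a1 a2 a3 => ?_⟩
  · exact nat_mem hd0 (hmem' v (Or.inl hv))
  · exact nat_mem hd0 (hmem' v (Or.inr hv))
  · rw [hα _ (prin_mem_Pr hx)]
    exact h1 x (Ray_mono hd' hx)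
  · rw [AddMonoidHom.sub_apply, hα _ (prin_mem a1), h2 x (a1.mono hd') a2 (a3.mono hd'), sub_self]
  · rw [hα _ (prin_mem a1)]
    refine h3 x (a1.mono hd') a2 fun v hv hNv => ?_
    refine (a3.mono hd') v ?_ hNv
    intro hv2
    rcases hv with hv | hv
    · exact Set.disjoint_left.1 hdis hv hv2
    · exact hv (hmem' v (Or.inr hv2))

end Pool.Agent.Q20.EX
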