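import Pool.Agent.Q20.EX.Abs2
import Pool.Agent.Q20.EX.Gen0

/-!
# The set of ramified primes at large finite levels; characters with given local components in `K̄`
-/

set_option autoImplicit false
set_option linter.unusedSectionVars false
set_option linter.deprecated false
set_option warn.classDefReducibility false

namespace Pool.Agent.Q20.EX

open NumberField IsDedekindDomain Pool.Agent.Q5.BR Pool.Agent.Q92.AR Pool.Agent.Q246.BI
  Pool.Agent.Q273.SP Pool.Agent.Q20.LG Pool.Agent.TeamU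

section
variable {K : Type} [Field K] [NumberField K]

attribute [local instance] facAlg

variable {X Y Z N : IntermediateField K (AlgebraicClosure K)}

/-- `ψ` is ramified at the place `u` -/
def RamAt (ψ : X.fixingSubgroup →* ℂˣ) (u : AlgebraicClosure K → ℝ) : Prop :=
  ∃ g : X.fixingSubgroup, Ine u (g : Gal(AlgebraicClosure K/K)) ∧ ψ g ≠ 1

/-- the primes at which `ψ` is ramified at level `N` -/
def AR (X N : IntermediateField K (AlgebraicClosure K)) [Fact (X ≤ N)] [NumberField X]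
    [NumberField N] [Normal K N] (ψ : X.fixingSubgroup →* ℂˣ) : Set (HeightOneSpectrum (𝓞 X)) :=
  {v | ∃ w : HeightOneSpectrum (𝓞 N), w.under (𝓞 X) = v ∧
    ∃ g : X.fixingSubgroup, Inert w (resN X N g) ∧ ψ g ≠ 1}

theorem ar_eq [Fact (X ≤ N)] [NumberField X] [NumberField N] [Normal K N]
    (ψ : X.fixingSubgroup →* ℂˣ) (ψ' : (N ≃ₐ[X] N) →* ℂˣ) (h : ∀ g, ψ' (resN X N g) = ψ g) :
    RamSet ψ' = AR X N ψ := by
  ext v
  constructor
  · rintro ⟨w, hw, g, hg, hg1⟩
    obtain ⟨g, rfl⟩ := resN_surjective g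
    exact ⟨w, hw, g, hg, by rwa [← h g]⟩
  · rintro ⟨w, hw, g, hg, hg1⟩
    exact ⟨w, hw, resN X N g, hg, by rwa [h g]⟩

theorem ar_finite [Fact (X ≤ N)] [NumberField X] [NumberField N] [Normal K N]
    (ψ : X.fixingSubgroup →* ℂˣ)
    (h : ∀ g : X.fixingSubgroup, (g : Gal(AlgebraicClosure K/K)) ∈ N.fixingSubgroup → ψ g = 1) :
    (AR X N ψ).Finite := by
  refine ((ram_finite (F := X) (N := N)).image fun w => w.under (𝓞 X)).subset ?_
  rintro v ⟨w, hw, g, hg, hg1⟩
  refine ⟨w, ⟨resN X N g, fun h1 => hg1 (h g ((resN_one g).1 h1)), hg⟩, hw⟩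

/-- ramification at the places gives ramification at every level -/
theorem ar_of_ramAt [Fact (X ≤ N)] [NumberField X] [NumberField N] [FiniteDimensional K X]
    [FiniteDimensional K N] [Normal K N]
    (ψ : X.fixingSubgroup →* ℂˣ) {v : HeightOneSpectrum (𝓞 X)} {u : AlgebraicClosure K → ℝ}
    (hu : Above X v u) (h : RamAt ψ u) : v ∈ AR X N ψ := by
  obtain ⟨g, hg, hg1⟩ := h
  obtain ⟨⟨p, hp, hup⟩, -⟩ := id hu
  obtain ⟨w, hw, -⟩ := exists_above N hp hup
  refine ⟨w, above_prime_eq (above_under hw) hu, g, inert_res hw hg, hg1⟩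

/-- the sets decrease -/
theorem ar_anti [Fact (X ≤ N)] [Fact (X ≤ Y)] [NumberField X] [NumberField N] [NumberField Y]
    [FiniteDimensional K X] [FiniteDimensional K N] [FiniteDimensional K Y] [Normal K N]
    [Normal K Y] (hNY : N ≤ Y) (ψ : X.fixingSubgroup →* ℂˣ) : AR X Y ψ ⊆ AR X N ψ := by
  rintro v ⟨w, hw, g, hg, hg1⟩
  have i1 : Fact (N ≤ Y) := ⟨hNY⟩
  obtain ⟨u, hu⟩ := exists_place Y w
  have hu' : Above N (w.under (𝓞 N)) u := above_under hu
  refine ⟨w.under (𝓞 N), ?_, g, ?_, hg1⟩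
  · rw [← hw]
    exact above_prime_eq (above_under hu') (above_under hu)
  · rw [inert_iff hu']
    rw [inert_iff hu] at hg
    intro x
    have hx : IsIntegral ℤ (algebraMap N Y (x : N)) :=
      x.isIntegral_coe.map (algebraMap N Y).toIntAlgHom
    have h1 := hg ⟨algebraMap N Y (x : N), hx⟩
    have h2 : ((resN X Y g (algebraMap N Y (x : N)) - algebraMap N Y (x : N) : Y) :
        AlgebraicClosure K) = ((resN X N g (x : N) - (x : N) : N) : AlgebraicClosure K) := by
      rw [AddSubgroupClass.coe_sub, AddSubgroupClass.coe_sub, resN_apply, resN_apply]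
      rfl
    rw [← h2]
    exact h1

/-- **Ramified primes at large levels.** -/
theorem ram_const [FiniteDimensional K X] [NumberField X] (ψ : X.fixingSubgroup →* ℂˣ)
    (hψ : Smooth X ψ) (N₀ : IntermediateField K (AlgebraicClosure K)) [FiniteDimensional K N₀] :
    ∃ (N : IntermediateField K (AlgebraicClosure K)) (_ : FiniteDimensional K N)
      (_ : NumberField N) (_ : Normal K N) (_ : Fact (X ≤ N)), N₀ ≤ N ∧
      (∀ g : X.fixingSubgroup, (g : Gal(AlgebraicClosure K/K)) ∈ N.fixingSubgroup → ψ g = 1) ∧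
      ∀ v ∈ AR X N ψ, ∀ u, Above X v u → RamAt ψ u := by
  classical
  obtain ⟨E, hE, hψE⟩ := id hψ
  let Q : ℕ → Prop := fun n => ∃ (N : IntermediateField K (AlgebraicClosure K))
    (_ : FiniteDimensional K N) (_ : NumberField N) (_ : Normal K N) (_ : Fact (X ≤ N)),
      N₀ ⊔ E ≤ N ∧ (AR X N ψ).ncard = n
  have hQ : ∃ n, Q n := by
    have h2 : FiniteDimensional K (X ⊔ (N₀ ⊔ E) : IntermediateField K (AlgebraicClosure K)) := by
      have h3 := IntermediateField.finiteDimensional_sup N₀ E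
      exact IntermediateField.finiteDimensional_sup X (N₀ ⊔ E)
    let M := IntermediateField.normalClosure K
      (X ⊔ (N₀ ⊔ E) : IntermediateField K (AlgebraicClosure K)) (AlgebraicClosure K)
    have h3 : (X ⊔ (N₀ ⊔ E) : IntermediateField K (AlgebraicClosure K)) ≤ M :=
      IntermediateField.le_normalClosure _
    have i1 : FiniteDimensional K M := inferInstance
    exact ⟨_, M, i1, nf M, inferInstance, ⟨le_sup_left.trans h3⟩, le_sup_right.trans h3, rfl⟩
  obtain ⟨N, i1, i2, i3, i4, hle, hcard⟩ := Nat.find_spec hQ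
  have hψN : ∀ (N' : IntermediateField K (AlgebraicClosure K)), N ≤ N' →
      ∀ g : X.fixingSubgroup, (g : Gal(AlgebraicClosure K/K)) ∈ N'.fixingSubgroup → ψ g = 1 :=
    fun N' h g hg => hψE g (IntermediateField.fixingSubgroup_antitone
      ((le_sup_right.trans hle).trans h) hg)
  refine ⟨N, i1, i2, i3, i4, le_sup_left.trans hle, hψN N le_rfl, fun v hv u hu => ?_⟩
  refine lift_ram ψ hψ v hu N ?_
  intro N' j1 j2 j3 j4 hNN'
  have hsub : AR X N' ψ ⊆ AR X N ψ := ar_anti hNN' ψ
  have hfin : (AR X N ψ).Finite := ar_finite ψ (hψN N le_rfl)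
  have hmin : Nat.find hQ ≤ (AR X N' ψ).ncard := Nat.find_min' hQ
    ⟨N', j1, j2, j3, j4, hle.trans hNN', rfl⟩
  have heq : AR X N' ψ = AR X N ψ := Set.eq_of_subset_of_ncard_le hsub (by rw [hcard]; exact hmin)
    hfin
  rw [← heq] at hv
  exact hv

end

end Pool.Agent.Q20.EX
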