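import Pool.Agent.Q20.EX.K4
import Pool.Agent.Q285.EX.Chev
import Pool.Agent.Q285.EX.Triv
import Pool.Agent.Q285.EX.Ncg
import Pool.Agent.Q38.EX.NrmB
import Pool.Agent.Q38.EX.Spl
import Pool.Agent.Q239.EX.GWG
import Pool.Agent.Q239.EX.CHU
import Pool.Agent.Q53.EX.Exi
import Pool.Agent.Q251.EX.Cf0
import Pool.Agent.Q299.EX.Cnt
import Pool.Agent.Q299.EX.Locn
import Pool.Agent.Q299.EX.Unt

/-!
# Project EX: the existence theorem of class field theory

Jobs: `nrm`, `spl` (helper38), `triv`, `ncg`, `chev` (helper285), `locn`, `cnt`, `unt` (helper299),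
`kum` (helper16), `exk`, `desc`, `exi` (helper53), `cf` (helper251), `gwg`, `chu` (helper239), `k4`,
`loc` (helper20).
-/

set_option autoImplicit false

namespace Pool.Agent.Q20.EX

open Pool.Agent.Q92.AR

theorem all_CF : S_CF := Pool.Agent.Q251.EX.cf' all_Sec all_NKer Pool.Agent.Q14.AR.cheb

/-- **The existence theorem** of class field theory: every ray class character is the Artin
character of a linear character of a Galois group. -/
theorem all_EXI : ∀ (F : Type) [Field F] [NumberField F] (N : ℕ)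
    (χ : Dv F →+ Additive ℂˣ), N ≠ 0 → (∀ x ∈ Ray F N, χ (prin x) = 0) → IsArt N χ :=
  Pool.Agent.Q53.EX.exi (Pool.Agent.Q53.EX.exk Pool.Agent.Q285.EX.triv Pool.Agent.Q38.EX.nrm
    Pool.Agent.Q38.EX.spl k4 Pool.Agent.Q299.EX.locn Pool.Agent.Q299.EX.cnt
    Pool.Agent.Q299.EX.unt Pool.Agent.Q16.EX.kum) all_CF Pool.Agent.Q53.EX.desc

/-- characters with given local components -/
theorem all_LOC : S_LOC :=
  loc (Pool.Agent.Q285.EX.chev Pool.Agent.Q239.EX.gwg Pool.Agent.Q239.EX.chu) all_EXI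

end Pool.Agent.Q20.EX
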