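import Pool.Agent.Q92.AR.Stm2

/-!
# Project EX: the existence theorem of class field theory

Base: project AR (`Pool.Agent.Q92.AR.All`), where Artin's reciprocity law (`recip : S_AR`), the second
inequality (`all_Sec : S_Sec`), Chebotarev's theorem (`Pool.Agent.Q14.AR.cheb : S_Cheb`), the kernel of
the Artin map (`all_NKer : S_NKer`), finiteness of the ray class groups (`all_Fin : S_Fin`), the rules
for norms (`Pool.Agent.Q106.AR.nm : S_Nm`), Frobenius elements (`Pool.Agent.Q225.AR.fr : S_FR`),
unramified primes (`Pool.Agent.Q280.AR.unr : S_Unr`) are proved.  Notations: `Pool.Agent.Q92.AR.Def`.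
Every job may use everything there (import `Pool.Agent.Q92.AR.All`).

GOAL: `S_EXI` (every ray class character of a number field is the Artin character of a linear character
of a Galois group), `S_LOC` (there are Galois characters with given local components) and `S_UNR`
(class group characters are unramified).
-/

set_option autoImplicit false
set_option linter.unusedSectionVars false
set_option linter.deprecated false

namespace Pool.Agent.Q20.EX

open NumberField IsDedekindDomain Pool.Agent.Q5.BR Pool.Agent.Q92.AR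

section
variable {F : Type} [Field F] [NumberField F]

/-- `x` is a unit at all primes dividing `N`. -/
def Un (N : ℕ) (x : Fˣ) : Prop :=
  ∀ v : HeightOneSpectrum (𝓞 F), (N : 𝓞 F) ∈ v.asIdeal → v.valuation F (x : F) = 1

/-- `x ≡ 1 mod N` at the primes of `A` which divide `N` -/
def CongAt (A : Set (HeightOneSpectrum (𝓞 F))) (N : ℕ) (x : F) : Prop :=
  ∀ v ∈ A, (N : 𝓞 F) ∈ v.asIdeal → v.valuation F (x - 1) ≤ v.valuation F (N : F)

/-- The local components of the character `χ` of the divisors at the primes of `S` are trivial: `χ`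
kills the divisors of the `x` which are units at `N`, totally positive and `≡ 1 mod N` at the primes
dividing `N` outside `S`. -/
def TrivAt (S : Set (HeightOneSpectrum (𝓞 F))) (N : ℕ) (χ : Dv F →+ Additive ℂˣ) : Prop :=
  ∀ x : Fˣ, Un N x → Pos (x : F) → CongAt Sᶜ N (x : F) → χ (prin x) = 0

/-- the primes of `F` dividing `N` -/
def primesOf (F : Type) [Field F] [NumberField F] (N : ℕ) : Set (HeightOneSpectrum (𝓞 F)) :=
  {v | (N : 𝓞 F) ∈ v.asIdeal}

/-- the `x ∈ Fˣ` whose divisor is supported at the primes dividing `N` (the `S`-units) -/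
noncomputable def SU (F : Type) [Field F] [NumberField F] (N : ℕ) : Subgroup Fˣ where
  carrier := {x | prin x ∈ SupF F (primesOf F N)}
  mul_mem' {a b} ha hb := by
    have h : prin (a * b) ∈ SupF F (primesOf F N) := by
      rw [prin_mul]
      exact (SupF F (primesOf F N)).add_mem ha hb
    exact h
  one_mem' := by
    have h : prin (1 : Fˣ) ∈ SupF F (primesOf F N) := by
      rw [prin_one]
      exact (SupF F (primesOf F N)).zero_mem
    exact h
  inv_mem' {a} ha := by
    have h : prin a⁻¹ ∈ SupF F (primesOf F N) := by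
      rw [prin_inv]
      exact (SupF F (primesOf F N)).neg_mem ha
    exact h

/-- the `x ∈ Fˣ` which are units at the primes dividing `N` but not `N1` -/
def UX (F : Type) [Field F] [NumberField F] (N1 N : ℕ) : Subgroup Fˣ where
  carrier := {x | ∀ v : HeightOneSpectrum (𝓞 F), (N : 𝓞 F) ∈ v.asIdeal → (N1 : 𝓞 F) ∉ v.asIdeal →
    v.valuation F (x : F) = 1}
  mul_mem' {a b} ha hb v h1 h2 := by
    rw [Units.val_mul, map_mul, ha v h1 h2, hb v h1 h2, mul_one]
  one_mem' v _ _ := by rw [Units.val_one, map_one]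
  inv_mem' {a} ha v h1 h2 := by
    rw [Units.val_inv_eq_inv_val, map_inv₀, ha v h1 h2, inv_one]

/-- the prime `v` of `F` splits completely in the Galois extension `M` (trivial decomposition groups) -/
def Split (M : Type) [Field M] [NumberField M] [Algebra F M] (v : HeightOneSpectrum (𝓞 F)) : Prop :=
  ∀ w : HeightOneSpectrum (𝓞 M), w.under (𝓞 F) = v →
    ∀ g : M ≃ₐ[F] M, Pool.Agent.TeamU.act g w = w → g = 1

end

/-- The character `χ` of the divisors of `F` is, on the divisors prime to some multiple `N'` of `N`, the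
Artin character of a linear character of a Galois group. -/
def IsArt {F : Type} [Field F] [NumberField F] (N : ℕ) (χ : Dv F →+ Additive ℂˣ) : Prop :=
  ∃ (M : Type) (_ : Field M) (_ : NumberField M) (_ : Algebra F M) (_ : IsGalois F M)
    (ψ : (M ≃ₐ[F] M) →* ℂˣ) (N' : ℕ), N' ≠ 0 ∧ N ∣ N' ∧ Ram F M N' ∧
    ∀ D ∈ Pr F N', art ψ D = χ D

/-! ## Part A: norms and Kummer extensions -/

/-- JOB NRM. Approximation by norms. Let `M/F` be Galois and `x ∈ Fˣ` such that at each prime `v ∣ N`:
`x ≡ 1 mod N`, or `v` splits completely in `M`, or `v` is unramified in `M` and `x` is a unit at `v`.  Then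
there is a totally positive `y ∈ Mˣ` with totally positive norm and `x / norm y ≡ 1 mod N`; `y` is a
unit at the primes dividing `N` above which `x` is a unit.
Proof.  By approximation (`x` can be multiplied by the `N^{ab}`-th powers .. or work with Mathlib's
Chinese remainder theorem and fractions) it is enough to find for each `v ∣ N` a local solution `y_v`
(an element of `Mˣ`, the product over the `g ∈ Gal` of the `g y_v` is near `x` at `v`), because `y` near
`y_v` at all `w` above `v` is good.  (1) `x ≡ 1 mod N`: `y_v = 1`.  (2) split: fix `w` above `v`, `y_v` near `x`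
at `w` and near `1` at the other primes above `v`: at `w` all factors `g y`, `g ≠ 1`, of the norm are near
`1`, since `g⁻¹ w ≠ w`; the norm lies in `F`, so it is near `x` at `v`.  (3) unramified: fix `w` above `v`,
let `D` be its decomposition group (cyclic, generated by a Frobenius element, of order `f`); `y_v` is
near `u` at `w` and near `1` at the other primes above `v`, where `u ∈ 𝓞 M` satisfies
`∏_{g ∈ D} g u ≡ x mod w^k`: such `u` exists by induction on `k`: for `k = 1` since the norm of finite fields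
is surjective; if it holds for `k`, take `π ∈ F` with `v(π) = 1` (`w(π) = 1` as well since `v` is
unramified), `x / ∏ g u ≡ 1 + π^k c mod w^{k+1}`, with `c` in the residue field of `v`, and replace `u` by
`u (1 + π^k b)` with trace of `b` (for the residue fields) equal to `c`.  Total positivity: multiply `y`
by a suitable element near `1` (`S_Sgn` for `M`, proved in `Pool.Agent.Q84.AR.sgn`), or add a large
positive integer divisible by a high power of `N`; the norm of a totally positive element is totally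
positive (`S_Nm`). -/
def S_NRM : Prop := ∀ (F M : Type) [Field F] [NumberField F] [Field M] [NumberField M] [Algebra F M]
  [IsGalois F M] (N : ℕ) (x : Fˣ), N ≠ 0 →
  (∀ v : HeightOneSpectrum (𝓞 F), (N : 𝓞 F) ∈ v.asIdeal →
    v.valuation F ((x : F) - 1) ≤ v.valuation F (N : F) ∨ Split M v ∨
    (Unramified M v ∧ v.valuation F (x : F) = 1)) →
  ∃ y : Mˣ, Pos (y : M) ∧ Pos (nu F M y : F) ∧ Cong N ((x : F) / (nu F M y : F)) ∧
    ∀ w : HeightOneSpectrum (𝓞 M), (N : 𝓞 M) ∈ w.asIdeal →
      (w.under (𝓞 F)).valuation F (x : F) = 1 → w.valuation M (y : M) = 1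

/-- JOB TRIV. The Artin character of `ψ` has trivial local components at the unramified primes.
Proof: let `x` be a unit at `N`, totally positive, `≡ 1 mod N` at the ramified primes; take `y` from
`S_NRM`; `prin y ∈ Pr M N`, `x / nu y ∈ Ray F N`, and `art ψ (prin (nu y)) = art ψ (nmD (prin y)) = 0` by
`S_Nm` (1) and `S_NKer` (1). -/
def S_TRIV : Prop := S_NRM → ∀ (F M : Type) [Field F] [NumberField F] [Field M] [NumberField M]
  [Algebra F M] [IsGalois F M] (ψ : (M ≃ₐ[F] M) →* ℂˣ) (N : ℕ), N ≠ 0 → Ram F M N →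
  (∀ x ∈ Ray F N, art ψ (prin x) = 0) → TrivAt {v | Unramified M v} N (art ψ)

/-- JOB SPL. Let `F` contain the `n`-th roots of unity and `M = F(r)`, `r^n = a ∈ Fˣ`.  If `a` is very
near to an `n`-th power at `v`, then `v` splits completely in `M`.
Proof.  Let `w` be above `v`, `s = r / y`, `s^n - 1 = ε`, `w(ε) > 2 w(n)` (additive valuation).
`∏_i (s - ζ^i) = ε` and `∏_{j ≠ i} (ζ^i - ζ^j) = n ζ^{-i}`.  Let `i` maximise `m = w(s - ζ^i)`; for `j ≠ i`,
`w(s - ζ^j) ≤ w(ζ^i - ζ^j)` (otherwise `w(s - ζ^i) = w(ζ^i - ζ^j) < w(s - ζ^j)`), so `m ≥ w(ε) - w(n) > w(n)`.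
If `g w = w` and `g r = ζ^k r`, then `w(ζ^k s - ζ^i) = w(g (s - ζ^i)) = m`, so `w((ζ^k - 1) s) ≥ m > w(n)`; but
`w(ζ^k - 1) ≤ w(n)` if `ζ^k ≠ 1`.  So `g r = r`, `g = 1`. -/
def S_SPL : Prop := ∀ (F M : Type) [Field F] [NumberField F] [Field M] [NumberField M] [Algebra F M]
  [IsGalois F M] (n : ℕ) (ζ : F), 0 < n → IsPrimitiveRoot ζ n → ∀ (a y : Fˣ) (r : M),
  r ^ n = algebraMap F M a → (∀ g : M ≃ₐ[F] M, g r = r → g = 1) → ∀ v : HeightOneSpectrum (𝓞 F),
  v.valuation F ((a : F) / (y : F) ^ n - 1) < v.valuation F (n : F) ^ 2 → Split M v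

/-- JOB K4. Let `2 < n`, `ζ ∈ F` a primitive `n`-th root of unity, `n ∣ N1`, and assume that every divisor
is equivalent to one supported at the primes dividing `N1`.  An `S`-unit which is locally an `n`-th
power at the primes dividing `N1` is an `n`-th power.
Proof.  Let `M` be the splitting field of `X^n - a` over `F` (a number field as a type; e.g. Mathlib's
`(X^n - C a).SplittingField`, or inside an algebraic closure), `r^n = a`.  `κ g = ` image of
`g r / r` under an embedding of the `n`-th roots of unity in `ℂˣ` is an injective character (`κ` is a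
homomorphism since `ζ ∈ F`).  `M/F` is unramified outside `N1` (if `g` is in the inertia group of
`w ∤ N1` then `ζ^k = g r / r ≡ 1 mod w`, so `ζ^k = 1` since `∏_{j≠0} (1 - ζ^j) = n` is a unit at `w`;
compare `Pool.Agent.Q280.AR` for the criterion, `Pool.Agent.Q92.AR.rd_injective`).  By `S_SPL` the primes
dividing `N1` split completely.  Let `N` be a multiple of `N1` as in `recip` (`S_AR`) for `κ` (multiply;
`Pool.Agent.Q125.AR.Ray_mono`, `Ram_mono`).  Let `D ∈ Pr F N`; choose `x` with
`D - prin x ∈ SupF F (primesOf F N1)`, so `x` is a unit at the primes dividing `N` and not `N1`; take `y`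
from `S_NRM` for `N`; `F` has no real place (`n > 2`), so `x / nu y ∈ Ray F N`.
`D = prin (x / nu y) + (prin (nu y) without its part at N1)`, and the second divisor is
the norm of `prin y` without its part at `N1`, which lies in `Pr M N` (last clause of `S_NRM`).
So `art κ D = 0` by `S_AR`, `S_NKer` (1).  By `S_NKer` (2), `[M : F] = 1`, so `r ∈ F`. -/
def S_K4 : Prop := S_NRM → S_SPL → ∀ (F : Type) [Field F] [NumberField F] (n N1 : ℕ) (ζ : F), 2 < n →
  IsPrimitiveRoot ζ n → N1 ≠ 0 → n ∣ N1 →
  (∀ D : Dv F, ∃ x : Fˣ, D - prin x ∈ SupF F (primesOf F N1)) →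
  ∀ a ∈ SU F N1, (∀ v ∈ primesOf F N1, ∃ y : Fˣ,
    v.valuation F ((a : F) / (y : F) ^ n - 1) < v.valuation F (n : F) ^ 2) → ∃ t : Fˣ, a = t ^ n

/-- JOB LOCN. The `n`-torsion of `(𝓞/v^e)ˣ` has at most `n q_v^k` elements, `k = v(n)`.
Proof.  Let `ζ ∈ F` be a primitive `n`-th root, `x ∈ 𝓞` with `x^n ≡ 1 mod v^e`. As in `S_SPL` there is an `i`
with `v(x - ζ^i) ≥ e - k`.  So the class of `x` modulo `v^e` lies in one of the `n` cosets
`ζ^i + v^{e-k}/v^e` (`e - k` replaced by `0` if `e < k`), each of `q_v^{min(e,k)}` elements. -/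
def S_LOCN : Prop := ∀ (F : Type) [Field F] [NumberField F] (n : ℕ) (ζ : F), 0 < n →
  IsPrimitiveRoot ζ n → ∀ (v : HeightOneSpectrum (𝓞 F)) (k e : ℕ), (n : 𝓞 F) ∉ v.asIdeal ^ (k + 1) →
  Nat.card {x : (𝓞 F ⧸ v.asIdeal ^ e)ˣ // x ^ n = 1} ≤ n * Ideal.absNorm v.asIdeal ^ k

/-- the `x ∈ UX` which are `n`-th powers times elements `≡ 1 mod N` at the primes dividing `N1` -/
def PX (F : Type) [Field F] [NumberField F] (n N1 N : ℕ) : Subgroup Fˣ where
  carrier := {x | ∃ y ∈ UX F N1 N, ∃ z ∈ UX F N1 N,
    CongAt (primesOf F N1) N (z : F) ∧ Un N1 z ∧ x = y ^ n * z}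
  mul_mem' {a b} ha hb := by
    obtain ⟨y, hy, z, hz, hz1, hz2, rfl⟩ := ha
    obtain ⟨y', hy', z', hz', hz1', hz2', rfl⟩ := hb
    refine ⟨y * y', (UX F N1 N).mul_mem hy hy', z * z', (UX F N1 N).mul_mem hz hz', ?_, ?_, ?_⟩
    · intro v hv hN
      have h1 : ((z * z' : Fˣ) : F) - 1 = (z : F) * ((z' : F) - 1) + ((z : F) - 1) := by
        rw [Units.val_mul]; ring
      rw [h1]
      refine (Valuation.map_add _ _ _).trans (max_le ?_ (hz1 v hv hN))
      rw [map_mul, hz2 v hv, one_mul]
      exact hz1' v hv hN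
    · intro v hv
      rw [Units.val_mul, map_mul, hz2 v hv, hz2' v hv, mul_one]
    · rw [mul_pow, mul_mul_mul_comm]
  one_mem' := by
    refine ⟨1, (UX F N1 N).one_mem, 1, (UX F N1 N).one_mem, ?_, ?_, by rw [one_pow, mul_one]⟩
    · intro v _ _
      rw [Units.val_one, sub_self, map_zero]
      exact zero_le
    · intro v _
      rw [Units.val_one, map_one]
  inv_mem' {a} ha := by
    obtain ⟨y, hy, z, hz, hz1, hz2, rfl⟩ := ha
    refine ⟨y⁻¹, (UX F N1 N).inv_mem hy, z⁻¹, (UX F N1 N).inv_mem hz, ?_, ?_, by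
      rw [mul_inv, inv_pow]⟩
    · intro v hv hN
      have h1 : ((z⁻¹ : Fˣ) : F) - 1 = - ((z : F)⁻¹ * ((z : F) - 1)) := by
        rw [Units.val_inv_eq_inv_val, mul_sub, inv_mul_cancel₀ z.ne_zero, mul_one]; ring
      rw [h1, Valuation.map_neg, map_mul, map_inv₀, hz2 v hv, inv_one, one_mul]
      exact hz1 v hv hN
    · intro v hv
      rw [Units.val_inv_eq_inv_val, map_inv₀, hz2 v hv, inv_one]

/-- JOB CNT. Upper bound for the index of `PX` in `UX`; `t` is the number of primes dividing `N1`.
Proof.  Map `x ∈ UX` to the family (`v ∣ N1`) of `v(x) mod n` and of the class of `x π_v^{-v(x)}` in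
`(𝓞/v^{e_v})ˣ` modulo `n`-th powers, `e_v = v(N)`, `π_v ∈ F` with `v(π_v) = 1`.  If `x` has trivial image, then
`x / y_v^n ≡ 1 mod v^{e_v}` for suitable `y_v ∈ Fˣ`, and with `y` near `y_v` at the `v ∣ N1` and near `1` at the
other primes dividing `N`, `z = x / y^n` shows `x ∈ PX` (so the classes modulo `PX` are determined by the
image).  In a finite abelian group the index of the `n`-th powers is the order of the `n`-torsion, so by
`S_LOCN` the number of possible images is at most
`∏_v n * n * q_v^{v(n)} = n^{2t} * N((n)) = n^{2t} n^{[F:ℚ]}` (all primes dividing `n` divide `N1`). -/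
def S_CNT : Prop := S_LOCN → ∀ (F : Type) [Field F] [NumberField F] (n N1 N : ℕ) (ζ : F), 0 < n →
  IsPrimitiveRoot ζ n → N ≠ 0 → n ∣ N1 → N1 ∣ N →
  (PX F n N1 N).relIndex (UX F N1 N) ≠ 0 ∧ (PX F n N1 N).relIndex (UX F N1 N) ≤
    n ^ (2 * Nat.card (primesOf F N1) + Module.finrank ℚ F)

/-- JOB UNT. The `S`-unit theorem: the index of the `n`-th powers in the group `SU F N1` is `n^{t + r}`,
`r = [F:ℚ]/2`, if `F` contains a primitive `n`-th root of unity, `n > 2` (so `F` is totally complex).
Proof.  `prin` maps `SU F N1` onto a subgroup of finite index (`S_Fin` for `N = 1`, or finiteness of the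
class number) of the free group `SupF F (primesOf F N1)` of rank `t`, with kernel the units of the ring of
integers, which by Dirichlet's unit theorem (Mathlib, `NumberField.Units`) are the product of the
cyclic group of the roots of unity, whose order is divisible by `n`, and a free group of rank
`r - 1`.  So `SU F N1` is the product of a finite cyclic group of order divisible by `n` and a free
group of rank `t + r - 1`.  The statement is squared to avoid `r`. -/
def S_UNT : Prop := ∀ (F : Type) [Field F] [NumberField F] (n N1 : ℕ) (ζ : F), 2 < n →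
  IsPrimitiveRoot ζ n → N1 ≠ 0 →
  (((SU F N1).map (powMonoidHom n)).relIndex (SU F N1)) ^ 2 =
    n ^ (2 * Nat.card (primesOf F N1) + Module.finrank ℚ F)

/-- JOB KUM. The Kummer characters of the `S`-units: one Kummer extension `M` of `F` and a
homomorphism `k` from the `S`-units to the characters of its group, with kernel the `n`-th powers.
Proof.  Let `M` be the splitting field over `F` of the product of the `X^n - a` over representatives
`a` of `SU F N1` modulo `n`-th powers (finitely many by `S_UNT`); every `a ∈ SU F N1` has an `n`-th root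
`r_a` in `M`, and `k a g` is the image of `g r_a / r_a` (independent of the root `r_a`) under an
embedding of the `n`-th roots of unity of `F` into `ℂˣ`.  If `k a = 1` then `r_a ∈ F`, and `prin r_a` is
supported in `primesOf F N1`.  For the ramification compare `S_K4` (the inertia group of a prime of
`M` not dividing `N1` fixes all `r_a`). -/
def S_KUM : Prop := S_UNT → ∀ (F : Type) [Field F] [NumberField F] (n N1 : ℕ) (ζ : F), 2 < n →
  IsPrimitiveRoot ζ n → N1 ≠ 0 → n ∣ N1 →
  ∃ (M : Type) (_ : Field M) (_ : NumberField M) (_ : Algebra F M) (_ : IsGalois F M)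
    (k : Fˣ → ((M ≃ₐ[F] M) →* ℂˣ)), Ram F M N1 ∧ (∀ x g, k x g ^ n = 1) ∧
    (∀ x ∈ SU F N1, ∀ y ∈ SU F N1, k (x * y) = k x * k y) ∧
    ∀ x ∈ SU F N1, k x = 1 → ∃ y ∈ SU F N1, x = y ^ n

/-- JOB EXK. The existence theorem for characters of exponent `n` if `ζ_n ∈ F`, `n > 2`.
Proof.  Choose `N1`, a multiple of `N n`, such that every divisor is equivalent to one supported at the
primes dividing `N1` (finiteness of the class group), `M, k` from `S_KUM`, and `N3`, a multiple of
`N1 n^3`, such that all `x ∈ Ray F N3` are killed by the `art (k a)`, `a ∈ SU F N1` (finitely many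
characters `k a`, since `M ≃ₐ[F] M` is finite; `recip`).  By `S_TRIV`, `art (k a)` kills the
divisors of the `x` which are units at `N3` and `≡ 1 mod N3` at the primes dividing `N1` (the other
primes are unramified; there are no real places).  `χ` kills them, too (`x ∈ Ray F N`).
Let `C` be the group `Pr F N3` modulo these divisors and modulo `n Pr F N3`.  For `x ∈ UX F N1 N3` let
`p(x)` be `prin x` without its part at `N1`, an element of `Pr F N3`.  `p : UX → C` is surjective
(choice of `N1`) and kills `SU F N1` and `PX F n N1 N3`.  So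
`#C ≤ [UX : PX SU] = [UX : PX] / [SU : SU ∩ PX]`, and `SU ∩ PX` consists of `n`-th powers of elements of `SU` by
`S_K4` (`z ≡ 1 mod N3` at `N1`, `n^3 ∣ N3`: `v(z - 1) < v(n)^2`, for `v ∤ n` as well as `v ∣ N3`), so
`[SU : SU ∩ PX] ≥ n^{t+r}` by `S_UNT` and `#C ≤ n^{2t+2r} / n^{t+r} = n^{t+r}` by `S_CNT` (`2r = [F:ℚ]`).
The homomorphism `SU / SU^n → Hom(C, ℂˣ)`, `a ↦ art (k a)`, is injective by `S_NKer` (2) (applied to the
field fixed by the kernel of `k a`; or: every `g` is a Frobenius element of a prime not dividing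
`N3`, `S_Cheb`), and `#Hom(C, ℂˣ) = #C`, so it is bijective by counting (`S_UNT`); `χ` restricted to
`Pr F N3` is in `Hom(C, ℂˣ)`. -/
def S_EXK : Prop := S_TRIV → S_NRM → S_SPL → S_K4 → S_LOCN → S_CNT → S_UNT → S_KUM →
  ∀ (F : Type) [Field F] [NumberField F] (n N : ℕ) (ζ : F) (χ : Dv F →+ Additive ℂˣ), 2 < n →
  IsPrimitiveRoot ζ n → N ≠ 0 → (∀ D ∈ Pr F N, n • χ D = 0) → (∀ x ∈ Ray F N, χ (prin x) = 0) →
  IsArt N χ

/-! ## Part B: descent -/

/-- JOB CF. Abelian extensions are class fields.
Proof.  Let `G = Gal(M/F)`, abelian.  The characters `art ψ`, `ψ : G → ℂˣ`, kill `HN F M N` (hypothesis and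
`S_NKer` (1)), different `ψ` have different `art ψ` on `Pr F N` (`S_Cheb`: every `g` is the Frobenius
element of a prime not dividing `N`; `frob M v` is conjugate, so equal to it), their number is
`#G = [M:F]` (`M/F` Galois), and the number of characters of `Pr F N / (HN F M N ∩ Pr F N)` is its order
`≤ [M:F]` (`S_Sec`).  So every character of `Pr F N` which kills `HN F M N` is an `art ψ`. -/
def S_CF : Prop := ∀ (F M : Type) [Field F] [NumberField F] [Field M] [NumberField M] [Algebra F M]
  [IsGalois F M], (∀ g h : M ≃ₐ[F] M, g * h = h * g) → ∀ N : ℕ, N ≠ 0 → Ram F M N →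
  (∀ (ψ : (M ≃ₐ[F] M) →* ℂˣ), ∀ x ∈ Ray F N, art ψ (prin x) = 0) →
  ∀ χ : Dv F →+ Additive ℂˣ, (∀ D ∈ HN F M N, χ D = 0) →
  ∃ ψ : (M ≃ₐ[F] M) →* ℂˣ, ∀ D ∈ Pr F N, art ψ D = χ D

/-- JOB DESC. Descent of the existence theorem in a cyclic extension `E/F`.
Proof.  `κ` is a character of `Gal(M/E)`, `art κ D = χ (nmD F E D)` for `D ∈ Pr E N1`.  Let `M1` be a
number field containing `M` and Galois over `F` (e.g. the normal closure), `κ1` the pull back of `κ` to
`Gal(M1/E)` (an open-coded inflation; `art κ1 = art κ` on `Pr E N2` for suitable `N2` by `S_FR` (1)).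
For `g ∈ Gal(M1/F)`, `κ1(g h g⁻¹) = κ1(h)` for `h ∈ Gal(M1/E)`: `h` is a Frobenius element of a prime `w`
of `E` not dividing a given integer (`S_Cheb`), `g h g⁻¹` one of `g w`, and
`nmD F E (single (g w)) = nmD F E (single w)`.  Let `M'` be the subfield of `M1` fixed by
`{h ∈ Gal(M1/E) : κ1(h) = 1}`, which is normal in `Gal(M1/F)`; `M'` contains `E`, `Gal(M'/F)` has the
central subgroup `Gal(M'/E)` (on which `κ1` is injective, invariant under conjugation) with cyclic
quotient `Gal(E/F)`, so it is abelian.  Let `N'` be a multiple of everything (`recip` for the finitely many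
characters of `Gal(M'/F)`; `Ram`; `N`).  `χ` kills `HN F M' N'`: the ray by hypothesis, and the norm of
`D ∈ Pr M' N'` is `nmD F E (nmD E M' D)` (`S_Tow`), `χ` of it is `art κ' (nmD E M' D) = 0` (`S_NKer` (1)), where
`κ'` is the character of `Gal(M'/E)` belonging to `κ1`.  Now `S_CF`. -/
def S_DESC : Prop := S_CF → ∀ (F E M : Type) [Field F] [NumberField F] [Field E] [NumberField E]
  [Field M] [NumberField M] [Algebra F E] [Algebra E M] [IsGalois F E] [IsGalois E M]
  (σ : E ≃ₐ[F] E), (∀ g : E ≃ₐ[F] E, g ∈ Subgroup.zpowers σ) →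
  ∀ (N N1 : ℕ) (χ : Dv F →+ Additive ℂˣ) (κ : (M ≃ₐ[E] M) →* ℂˣ), N ≠ 0 → N1 ≠ 0 →
  (∀ x ∈ Ray F N, χ (prin x) = 0) → (∀ D ∈ Pr E N1, art κ D = χ (nmD F E D)) → IsArt N χ

/-- JOB EXI. **The existence theorem** of class field theory: every ray class character is the Artin
character of a linear character of a Galois group.
Proof.  `χ` has finite order on `Pr F N` (`S_Fin`: the ray class group is finite), let `n > 2` be a multiple
of it.  Induction on `[F(ζ_n) : F]` (for all `F`, `N`, `χ` with `n χ = 0` on `Pr F N`).  If `ζ_n ∈ F` use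
`S_EXK`.  Otherwise `F(ζ_n)/F` is abelian, so there is a field `E` between with `E/F` cyclic of
prime degree; `E(ζ_n) = F(ζ_n)` has smaller degree over `E`; the character `D ↦ χ (nmD F E D)` of `Dv E` kills
`Ray E N` and its `n`-th power is trivial on `Pr E N` (`S_Nm`), so by induction it is `IsArt`, and
`S_DESC` gives the claim.  (Choose all fields as number fields in `Type`; e.g. intermediate
fields of `CyclotomicField n F`.) -/
def S_EXI : Prop := (∀ (F : Type) [Field F] [NumberField F] (n N : ℕ) (ζ : F)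
    (χ : Dv F →+ Additive ℂˣ), 2 < n → IsPrimitiveRoot ζ n → N ≠ 0 → (∀ D ∈ Pr F N, n • χ D = 0) →
    (∀ x ∈ Ray F N, χ (prin x) = 0) → IsArt N χ) → S_CF → S_DESC →
  ∀ (F : Type) [Field F] [NumberField F] (N : ℕ) (χ : Dv F →+ Additive ℂˣ), N ≠ 0 →
  (∀ x ∈ Ray F N, χ (prin x) = 0) → IsArt N χ

/-! ## Part C: characters with given local components -/

/-- JOB GWG. For large `b`, an `x ∈ F` which is a `p^b`-th power in `F(ζ_{p^b})` is a `p^a`-th power in `F`.
Proof.  Let `C = F(ζ)`, `ζ` of order `p^b`, `y^{p^b} = x ≠ 0`.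
(1) For `δ ∈ Gal(C/F)`, `δ ζ = ζ^c`, put `z = y^c / δ(y)`.  `Gal(C/F)` is abelian and `τ y = ζ^{k} y`, so
`τ z = z` for all `τ`: `z ∈ F`, `z^{p^b} = x^{c-1}`.
(2) Let `p^r` be the number of roots of unity of `p`-power order in `F`, `b ≥ r`. The `c - 1` (over all `δ`)
and `p^b` have greatest common divisor `p^r` (if all `c ≡ 1 mod p^{r+1}`, `ζ^{p^{b-r-1}}` would be in
`F`).  So `x^{p^r} = t^{p^b}`, `t ∈ F`, and `x = ξ t^{p^{b-r}}` with `ξ ∈ F`, `ξ^{p^r} = 1`.  If `ξ = 1` and
`b - r ≥ a` we are done; let `ξ` have order `p^s`, `s ≥ 1`.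
(3) There is an `m ≥ 2` depending only on `F` such that for all `b > m` the `c = 1 + p^m` occurs (the image
of `Gal(C/F)` in `(ℤ/p^b)ˣ` has index `≤ [F:ℚ]`, so it contains all `1 + p^m ℤ` if `p^{m-2} ≥ [F:ℚ]`); let `δ`
be the automorphism, of order `J = p^{b-m}`, and `m ≥ s`.
(4) `(y^{p^r} / t)^{p^{b-r}} = ξ`, so `y^{p^r} = t ζ''` with `ζ''` a root of unity of order `p^{b-r+s}`, and
`ρ = δ(y)/y` satisfies `ρ^{p^r} = ζ''^{p^m}`, which has order `p^{b-r+s-m}`, so `ρ` has order `p^{b+s-m}` (if
`b > r + m`).  But `y = δ^J(y) = ρ^{1 + c + ... + c^{J-1}} y` and `1 + c + ... + c^{J-1} = (c^J - 1)/(c - 1)` is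
`p^{b-m}` times a number prime to `p`.  So `ρ^{p^{b-m}} = 1`, a contradiction to `s ≥ 1`. -/
def S_GWG : Prop := ∀ (F : Type) [Field F] [NumberField F] (p a : ℕ), p.Prime → ∃ b0 : ℕ,
  ∀ b : ℕ, b0 ≤ b → ∀ (C : Type) [Field C] [NumberField C] [Algebra F C]
  [IsCyclotomicExtension {p ^ b} F C] (x : F) (y : C), y ^ p ^ b = algebraMap F C x →
  ∃ t : F, t ^ p ^ a = x

/-- JOB CHU. Chevalley's theorem: units which are `≡ 1` modulo suitable primes are `m`-th powers.
Proof.  If `u = t_p^{p^a}` for all prime powers `p^a` exactly dividing `m`, then `u` is an `m`-th power, so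
treat one prime power `p^a` and take the product of the `Q`.  Let `b` be as in `S_GWG`, `n = p^b`,
`C = CyclotomicField n F`.  For each of the finitely many classes of the units of `𝓞 F` modulo `n`-th
powers which contains a unit `s` that is not an `n`-th power in `C` let `C'` be the splitting field of
`X^n - s` over `C`, `r^n = s`; it is Galois over `F`, and there is an `h ∈ Gal(C'/C)` with `h r ≠ r`.
By `S_Cheb` (over `F`) there is a prime `v` of `F`, prime to `p N0`, with Frobenius element `h`; let `Q` be the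
product of the residue characteristics of these `v` (so `Q` is prime to `N0`; choose `v` outside the
finitely many primes above the rational primes dividing `p N0`).  Suppose `u ≡ 1 mod v`, `u = s t^n`.
Then with `w` above `v` such that `h x ≡ x^{q_v} mod w`: `(r t)^n = u ≡ 1 mod w`, so `r t ≡ ζ^i mod w`
(`X^n - 1 = ∏ (X - ζ^i)`), `h(r) t = h(r t) ≡ ζ^{i q_v} ≡ h(ζ^i) = ζ^i ≡ r t`, and `h(r)/r` is an `n`-th
root of unity `≡ 1 mod w`, `w ∤ p`, so `h(r) = r`, contradiction.  Hence `u` is an `n`-th power in `C`,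
and by `S_GWG` `u = t^{p^a}`. -/
def S_CHU : Prop := S_GWG → ∀ (F : Type) [Field F] [NumberField F] (m N0 : ℕ), m ≠ 0 → N0 ≠ 0 →
  ∃ Q : ℕ, Q ≠ 0 ∧ Q.Coprime N0 ∧ ∀ u : Fˣ, prin u = 0 →
  (∀ v : HeightOneSpectrum (𝓞 F), (Q : 𝓞 F) ∈ v.asIdeal → v.valuation F ((u : F) - 1) < 1) →
  ∃ t : Fˣ, prin t = 0 ∧ u = t ^ m

/-- JOB CHEV. Ray class characters with given local components: `χ` has the local components of `θ` at
the primes of `S` (first clause) and trivial ones at the other primes dividing `N0` (second clause).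
Proof.  There is an `m > 0` with `m θ(D) = 0` for `D ∈ Pr F N0` (`S_Fin`).  Take `Q` from `S_CHU` for
`m, N0` and `N = N0 Q`.  For `x` a unit at `N0` choose a totally positive `z ∈ Fˣ` with `x / z ≡ 1 mod N0` at
the primes of `S` dividing `N0` and `z ≡ 1 mod N0` at the other primes dividing `N0` (approximation),
and put `c(x) = θ(prin z)`; this is well defined and multiplicative since `θ` kills `Ray F N0`.  Let `A`
be the group of the totally positive `x` which are units at `N` and `≡ 1 mod N` at the primes dividing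
`Q` (these do not divide `N0`).  If `x ∈ A` and `prin x = 0` then `x = t^m` and
`c(x) = m c(t) = 0`.  So there is a homomorphism `χ : prin(A) → ℂˣ` with `χ(prin x) = c(x)`, and it extends
to `Dv F` since `ℂˣ` is divisible.  First clause: `x ∈ A`, `x / z ∈ Ray F N0`, so `c(x) = θ(prin x)`.
Second clause: one can take `z = 1`.  If `x ∈ Ray F N`, the first clause gives
`χ(prin x) = θ(prin x) = 0`. -/
def S_CHEV : Prop := S_GWG → S_CHU → ∀ (F : Type) [Field F] [NumberField F] (N0 : ℕ)
  (S : Set (HeightOneSpectrum (𝓞 F))) (θ : Dv F →+ Additive ℂˣ), N0 ≠ 0 →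
  (∀ x ∈ Ray F N0, θ (prin x) = 0) →
  ∃ (N : ℕ) (χ : Dv F →+ Additive ℂˣ), N ≠ 0 ∧ N0 ∣ N ∧ (∀ x ∈ Ray F N, χ (prin x) = 0) ∧
  (∀ x : Fˣ, Un N x → Pos (x : F) → CongAt Sᶜ N (x : F) → χ (prin x) = θ (prin x)) ∧
  ∀ x : Fˣ, Un N x → Pos (x : F) → CongAt (S ∪ (primesOf F N0)ᶜ) N (x : F) → χ (prin x) = 0

/-- Galois characters with given local components: `α` has the local components of `ψ` at the primes
of `S1` and trivial ones at the primes of `S2`.  (From `S_CHEV`, `S_EXI`; for `N` one can take every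
multiple of the number obtained.) -/
def S_LOC : Prop := ∀ (F M : Type) [Field F] [NumberField F] [Field M] [NumberField M] [Algebra F M]
  [IsGalois F M] (ψ : (M ≃ₐ[F] M) →* ℂˣ) (S1 S2 : Set (HeightOneSpectrum (𝓞 F))), S1.Finite →
  S2.Finite → Disjoint S1 S2 →
  ∃ (M' : Type) (_ : Field M') (_ : NumberField M') (_ : Algebra F M') (_ : IsGalois F M')
    (α : (M' ≃ₐ[F] M') →* ℂˣ) (N : ℕ), N ≠ 0 ∧ Ram F M N ∧ Ram F M' N ∧ S1 ⊆ primesOf F N ∧
    S2 ⊆ primesOf F N ∧ (∀ x ∈ Ray F N, art ψ (prin x) = 0) ∧ (∀ x ∈ Ray F N, art α (prin x) = 0) ∧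
    TrivAt S1 N (art ψ - art α) ∧ TrivAt S2 N (art α)

/-! ## Part D: class group characters -/

/-- JOB NCG. A character which kills the divisors of the totally positive elements prime to `N`
comes from the narrow class group.
Proof.  For `D ∈ Dv F` there is a totally positive `y` with `D - prin y ∈ Pr F N` (approximation); put
`c(D) = χ(D - prin y)`, independent of `y`. -/
def S_NCG : Prop := ∀ (F : Type) [Field F] [NumberField F] (N : ℕ) (χ : Dv F →+ Additive ℂˣ), N ≠ 0 →
  TrivAt Set.univ N χ → ∃ c : Dv F →+ Additive ℂˣ, (∀ x : Fˣ, Pos (x : F) → c (prin x) = 0) ∧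
  ∀ D ∈ Pr F N, c D = χ D

/-- JOB GOOD. Reciprocity at an unramified prime `v`: there is an `N` such that the totally positive
`x`, `x ≡ 1 mod N` at the primes dividing `N` other than `v`, are killed by `art ψ ∘ prin`, whatever
`v(x)` is.
Proof.  Let `f` be the order of `ψ(frob M v)`.  By `S_Ord` and `S_Irr` (`Pool.Agent.Q84.AR.ord`,
`Pool.Agent.Q280.AR.irr`) there is an `m` prime to `v` such that all automorphisms `ζ ↦ ζ^t`, `t` prime to
`m`, of `C = CyclotomicField m M` over `M` exist and `f` divides the order of `q_v` modulo `m`; so there is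
a character `ρ` of `(ℤ/m)ˣ` with `ρ(q_v) = ψ(frob M v)⁻¹` (extension of characters of finite abelian
groups).  Let `ψ'`, `ρ'` be the characters of `Gal(C/F)` given by `ψ` (restriction to `M`) and by `ρ`
(action on `ζ_m`), `L` the subfield of `C` fixed by the kernel of `ψ' ρ'`: `v` is unramified in `C`
(`S_Unr`) and its Frobenius elements are in the kernel of `ψ' ρ'`, so `v` splits completely in `L`.  Let `N` be
a common multiple of `m`, of an integer divisible by `v` and by all primes that ramify in `C`, and of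
a modulus for `ψ' ρ'` (`recip`).  For `x` as above, `S_NRM` for `L/F` (at `v`: split; at the others
`x ≡ 1`) gives a `y ∈ Lˣ` with `x / nu y ∈ Ray F N`, so `art (ψ'ρ') (prin x) = art (ψ'ρ') (nmD (prin y))`
(characters of `Gal(L/F)`); the norm of the part of `prin y` above `v` is a multiple of `v` and killed since
`(ψ'ρ')(frob v) = 1`; the rest of `prin y` is prime to `N` (last clause of `S_NRM`) and its norm is killed
by `S_NKer` (1).  So `art (ψ'ρ') (prin x) = 0`.  And `art ρ' (prin x) = 0` by `S_Cyc` with the modulus `m` (`m` is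
prime to `v`, so `x ∈ Ray F m`), used for `E = C' = CyclotomicField m F` or a subfield.  Hence
`art ψ (prin x) = 0` (`S_FR` (1) to compare the characters on `C`, `L`, `M`; all are unramified at the
primes where `prin x ≠ 0`: these do not divide `N` or are `v`). -/
def S_GOOD : Prop := S_NRM → ∀ (F M : Type) [Field F] [NumberField F] [Field M] [NumberField M]
  [Algebra F M] [IsGalois F M] (ψ : (M ≃ₐ[F] M) →* ℂˣ) (v : HeightOneSpectrum (𝓞 F)),
  Unramified M v → ∃ N : ℕ, N ≠ 0 ∧ Ram F M N ∧ ∀ x : Fˣ, Pos (x : F) → CongAt {v}ᶜ N (x : F) →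
  art ψ (prin x) = 0

/-- JOB UNR. Class group characters are unramified.
Proof.  Replace `M` by the field fixed by the kernel of `ψ`: `ψ` is injective, `Gal(M/F)` is cyclic of
order `n` (inertia elements restrict to inertia elements).  For `0 ≤ j < n` let `c_j` be the character of
the narrow class group from `S_NCG` for `ψ^j` (`= c_1^j` may be used: put `c_j = j • c_1`).  For every
unramified `v`, `c_j(v) = ψ(frob v)^j`: choose (approximation) a totally positive `y` with `v(y) = 1`,
`y ≡ 1 mod N'` at the primes dividing `N'` other than `v`, `N'` a multiple of `N` and of the number from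
`S_GOOD`; `D = v - prin y ∈ Pr F N` and `c_j(v) = c_j(D) = art ψ^j D = ψ(frob v)^j`.
So for `Re s > 1`, by the Euler products, `ζ_M(s) P_1(s) = ∏_j L(s, c_j) P_2(s)` with
`P_1 = ∏_{v ram} ∏_{w ∣ v} (1 - q_w^(-s))`, `P_2 = ∏_{v ram} ∏_j (1 - c_j(v) q_v^(-s))` (for unramified `v` with
Frobenius of order `f`: `∏_j (1 - ξ^j X) = (1 - X^f)^(n/f)`, `n/f` primes above, of norm `q_v^f`).
Functional equations: `Pool.Agent.Q92.AR.exists_xi` (Dedekind zeta function of `M`) and
`Pool.Agent.Q246.Unr.UC.fe` (`Pool/Agent/Q246/Unram2.lean`) for the characters `c_j` of the narrow class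
group (with the signs `e` given by `c_j` on principal ideals; compare
`Pool.Agent.Q84.AR.Hecke`, `psi`, for the translation from divisors to ideals, with `N = 1`).  The gamma
factors have no zeros and poles off the real axis, and `P_1, P_2` have no zeros with `Re s = 1`; so at
`s_0 = i t`, `t ≠ 0` real, `P_2 / P_1` has order `0`.  Suppose a prime `v_0` ramifies, `p` the rational prime
below.  The factors of `P_1, P_2` with `v ∣ p` are `A(p^(-s))`, `B(p^(-s))` with polynomials `A`, `B` of
degrees `∑_v f_v g_v f_w = ∑_v f_v n / e_v < ∑_v f_v n`, constant terms `1` and all zeros roots of unity; the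
factors for other `p'` have zeros `i t` only with `t ∈ (2π / log p') ℚ`, and
`(2π / log p) ℚ ∩ (2π / log p') ℚ = 0`.  Every root of unity is `p^(-i t)` for some `t ≠ 0` in
`(2π / log p) ℚ`, so `A` and `B` have the same zeros with the same multiplicities, a contradiction
to their degrees. -/
def S_UNR : Prop := S_NRM → S_NCG → S_GOOD → ∀ (F M : Type) [Field F] [NumberField F] [Field M]
  [NumberField M] [Algebra F M] [IsGalois F M] (ψ : (M ≃ₐ[F] M) →* ℂˣ) (N : ℕ), N ≠ 0 →
  Ram F M N → TrivAt Set.univ N (art ψ) → ∀ (w : HeightOneSpectrum (𝓞 M)) (g : M ≃ₐ[F] M),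
  (∀ x : 𝓞 M, w.valuation M (g (x : M) - (x : M)) < 1) → ψ g = 1

/-! ## Part E: dihedral extensions -/

/-- JOB DIH. `E/K` is quadratic (or `s = 1`), `L ⊇ E, F`, `L/F` Galois; `B` a set of primes of `K`, the
primes of `E` above `B` are those of `S` and `s S`, disjoint; `θ` is a ray class character of `K` with
trivial local components outside `B`, `α` one of `E`, which has the same local components as
`θ ∘ norm` at `S` and trivial ones at `s S`; `α - α ∘ s` kills the norms from `L`, and the primes of `F` above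
`B` split completely in `L`.  Then `θ ∘ norm` is a class group character of `F`.
Proof.  All approximations: choose totally positive elements, `≡` to given ones modulo `N` at the
primes dividing `N`.  Let `θ_E = θ ∘ nmD K E`, `θ_F = θ ∘ nmD K F`; they kill the rays modulo `N` (`S_Nm`).
Let `x ∈ Fˣ` be a unit at `N`, totally positive; `x = x1 x2 r`, with `x1 ≡ x` at the primes above `B` and `≡ 1`
at the others, `x2 ≡ 1` at the primes above `B` and `≡ x` at the others, `r ∈ Ray F N`.
(1) `nu K F x2 ≡ 1` at `B`, so `θ_F(prin x2) = θ(prin (nu x2)) = 0` (`TrivAt Bᶜ N θ`).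
(2) `S_NRM` for `L/F` and `x1` (split at the primes above `B`, `≡ 1` at the others) gives a `y ∈ Lˣ`,
totally positive, a unit at `N`, `x1 / nu F L y ∈ Ray F N`.  So `θ_F(prin x1) = θ_F(nmD F L (prin y)) =
θ_E(nmD E L (prin y))` (`S_Tow`).
(3) `y = y1 y2 y3 r'`, `y1 ≡ y` at the primes above `S` and `≡ 1` at the others, `y2 ≡ y` at the primes above
`s S` and `≡ 1` at the others, `y3 ≡ 1` at both; `r' ∈ Ray L N`.  Put `z_i = nu E L y_i`.
`θ_E(prin z_3) = θ(prin (nu K E z_3)) = 0` as in (1).
(4) `z_1 ≡ 1` outside `S`, so `θ_E(prin z_1) = α(prin z_1)`; `z_1` is a norm from `L`, so this is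
`α(sD s (prin z_1)) = α(prin (s z_1))`, and `s z_1 ≡ 1` outside `s S`, so it is `0`.
(5) `θ_E(prin z_2) = θ_E(sD s (prin z_2)) = θ_E(prin (s z_2))` (the norm is invariant, `S_SD` (2)), `s z_2 ≡ 1`
outside `S`, so this is `α(prin (s z_2)) = α(sD s (prin z_2)) = α(prin z_2)` (norm from `L`), and `z_2 ≡ 1`
outside `s S`, so it is `0`. -/
def S_DIH : Prop := S_NRM → ∀ (K E F L : Type) [Field K] [NumberField K] [Field E] [NumberField E]
  [Field F] [NumberField F] [Field L] [NumberField L] [Algebra K E] [Algebra K F] [Algebra K L]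
  [Algebra E L] [Algebra F L] [IsScalarTower K E L] [IsScalarTower K F L] [IsGalois K E]
  [IsGalois F L] (s : E ≃ₐ[K] E) (N : ℕ) (B : Set (HeightOneSpectrum (𝓞 K)))
  (S : Set (HeightOneSpectrum (𝓞 E))) (θ : Dv K →+ Additive ℂˣ) (α : Dv E →+ Additive ℂˣ),
  N ≠ 0 → s * s = 1 → (∀ g : E ≃ₐ[K] E, g ∈ Subgroup.zpowers s) →
  (∀ w : HeightOneSpectrum (𝓞 E), w.under (𝓞 K) ∈ B ↔
    (w ∈ S ∨ Pool.Agent.TeamU.act s w ∈ S)) →
  (∀ w ∈ S, Pool.Agent.TeamU.act s w ∉ S) → B ⊆ primesOf K N →
  (∀ x ∈ Ray K N, θ (prin x) = 0) → TrivAt Bᶜ N θ →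
  (∀ x ∈ Ray E N, α (prin x) = 0) → TrivAt {w | Pool.Agent.TeamU.act s w ∈ S} N α →
  TrivAt S N (θ.comp (nmD K E) - α) →
  (∀ D ∈ Pr L N, α (nmD E L D) = α (sD s (nmD E L D))) →
  (∀ u : HeightOneSpectrum (𝓞 F), u.under (𝓞 K) ∈ B → Split L u) →
  TrivAt Set.univ N (θ.comp (nmD K F))

end Pool.Agent.Q20.EX
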