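import Pool.Agent.Q20.EX.Stm

/-!
# Project EX, second part: restriction of Artin characters, twists by quadratic characters
-/

set_option autoImplicit false
set_option linter.unusedSectionVars false
set_option linter.deprecated false

namespace Pool.Agent.Q20.EX

open NumberField IsDedekindDomain Pool.Agent.Q5.BR Pool.Agent.Q92.AR

section
variable {F M : Type} [Field F] [NumberField F] [Field M] [NumberField M] [Algebra F M]

/-- `g` is in the inertia group of the prime `w` of `M` -/
def Inert (w : HeightOneSpectrum (𝓞 M)) (g : M ≃ₐ[F] M) : Prop :=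
  ∀ x : 𝓞 M, w.valuation M (g (x : M) - (x : M)) < 1

/-- the primes of `F` at which the character `ψ` is ramified -/
def RamSet (ψ : (M ≃ₐ[F] M) →* ℂˣ) : Set (HeightOneSpectrum (𝓞 F)) :=
  {v | ∃ w : HeightOneSpectrum (𝓞 M), w.under (𝓞 F) = v ∧ ∃ g : M ≃ₐ[F] M, Inert w g ∧ ψ g ≠ 1}

end

/-- restriction of scalars, a homomorphism -/
def rs (F E M : Type) [Field F] [Field E] [Field M] [Algebra F E] [Algebra F M] [Algebra E M]
    [IsScalarTower F E M] : (M ≃ₐ[E] M) →* (M ≃ₐ[F] M) where
  toFun g := g.restrictScalars F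
  map_one' := rfl
  map_mul' _ _ := rfl

/-- JOB RES. The Artin character of the restriction of `ψ` to `Gal(M/E)` is the composition of the Artin
character of `ψ` with the norm, on the divisors prime to `N`.
Proof.  Let `u` be a prime of `E` not dividing `N`, `v` the prime of `F` below, `g` a Frobenius element of
`Gal(M/E)` at `u`, for the prime `w` of `M`: `g x ≡ x^{q_u} mod w`, `q_u = q_v^{f}`, `f = rdeg F u`.  There is an
`h ∈ Gal(M/F)` with `h x ≡ x^{q_v} mod w` (a conjugate of `frob M v`); `h^f x ≡ g x mod w` for all integers,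
so `h^f = g` as `v` is unramified in `M` (`Pool.Agent.Q92.AR.rd_injective` or the criterion in
`Pool.Agent.Q280.AR`, `Pool.Agent.Q225.AR.FR`).  So `ψ(g) = ψ(frob M v)^f`. -/
def S_RES : Prop := ∀ (F E M : Type) [Field F] [NumberField F] [Field E] [NumberField E] [Field M]
  [NumberField M] [Algebra F E] [Algebra F M] [Algebra E M] [IsScalarTower F E M] [IsGalois F M]
  (ψ : (M ≃ₐ[F] M) →* ℂˣ) (N : ℕ), N ≠ 0 → Ram F M N →
  ∀ D ∈ Pr E N, art (ψ.comp (rs F E M)) D = art ψ (nmD F E D)

/-- JOB TRV2. The Artin character of `ψ` has trivial local components at the primes where `ψ` is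
unramified.
Proof.  Let `M'` be the subfield of `M` fixed by the kernel of `ψ` (an `IntermediateField F M`), `ψ'` the
character of `Gal(M'/F)` with `ψ' (g|M') = ψ(g)`.  If `ψ` is trivial on all inertia groups above `v`, then `v`
is unramified in `M'` (inertia elements of `Gal(M'/F)` lift to inertia elements: if `h` is in the inertia
group of `w'` in `Gal(M'/F)`, `w` above `w'`, there is a `g` in the inertia group of `w` with `g|M' = h`,
standard, see Mathlib on inertia groups and quotients or count orders; then `h = 1` since `ψ'` is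
injective; and a prime with trivial inertia groups is unramified in the sense of
`Pool.Agent.Q92.AR.Unramified`, Mathlib: the order of the inertia group is the ramification
index).  Take `N` from `recip` for `ψ'`, multiplied such that the primes ramified in `M` divide it;
`art ψ' = art ψ` on `Pr F N` (`S_FR` (1)); apply `S_TRIV` to `M'`. -/
def S_TRV2 : Prop := S_NRM → S_TRIV → ∀ (F M : Type) [Field F] [NumberField F] [Field M]
  [NumberField M] [Algebra F M] [IsGalois F M] (ψ : (M ≃ₐ[F] M) →* ℂˣ),
  ∃ N : ℕ, N ≠ 0 ∧ Ram F M N ∧ (∀ x ∈ Ray F N, art ψ (prin x) = 0) ∧ TrivAt (RamSet ψ)ᶜ N (art ψ)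

/-- JOB TW2. The main step: `N/F` is Galois, `E`, `F1`, `L` are fields between `F` and `N`, `L ⊇ E, F1`, in
fact `L = E F1`, `E/F` Galois with group generated by `s`, `s^2 = 1`; `t ∈ Gal(N/F)` extends `s`; `ψ` is a
character of `Gal(N/F)` such that at the primes where `ψ` is ramified the decomposition groups act
trivially on `E`; `α` is a character of `Gal(N/E)` with the local components of `ψ` at `S` and trivial
ones at `s S`, where `S` contains one of the two primes above every prime of `F` where `ψ` is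
ramified; and `α(g) = α(t g t⁻¹)` for the `g` which fix `L`.  Then the restriction of `ψ` to `Gal(N/F1)` is
unramified.
Proof.  Choose an `N0 ≠ 0` divisible by the number in the hypothesis, by that of `S_TRV2` for `ψ`, and by
all primes ramified in `N/F`, and by the primes of `RamSet ψ` (finite: they ramify in `N`); all
conditions `TrivAt S N χ` remain true for multiples of `N`.  Put `θ = art ψ`, `B = RamSet ψ`, and use
`S_DIH` with `K = F`, `E`, `F = F1`, `L`, `s`, `α = art α`.  Its hypotheses: `TrivAt S (θ ∘ nmD F E - art α)`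
by `S_RES` (`prin x ∈ Pr E N0` for units at `N0`).  `art α (nmD E L D) = art α (sD s (nmD E L D))`: for the
character `α^t(g) = α(t g t⁻¹)` one has `art α (sD s D') = art α^t D'` for `D'` prime to `N0` (if `g` is a
Frobenius element at `w`, `t g t⁻¹` is one at `s w`), and by `S_RES` for `E, L, N`,
`art α (nmD E L D) = art (α|L) D = art (α^t|L) D = art α^t (nmD E L D)`.  Splitting: let `u` be a prime of
`F1` above `v ∈ B`, `w0` a prime of `L` above `u`, `g ∈ Gal(L/F1)` with `g w0 = w0`; lift `g` to `Gal(N/F1)` and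
multiply by an element of `Gal(N/L)` such that it fixes a prime `w` of `N` above `w0`; `ψ` is ramified at
`w` (all primes above `v` are conjugate), so the lift acts trivially on `E`, hence on `L`: `g = 1`.
The conclusion of `S_DIH` and `S_RES` say that `art (ψ|F1)` kills the divisors of the totally
positive elements of `F1` which are units at `N0`, and `S_UNR` gives the claim. -/
def S_TW2 : Prop := S_NRM → S_NCG → S_GOOD → S_UNR → S_TRIV → S_RES → S_TRV2 → S_DIH →
  ∀ (F E F1 L N : Type) [Field F] [NumberField F] [Field E] [NumberField E] [Field F1]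
  [NumberField F1] [Field L] [NumberField L] [Field N] [NumberField N] [Algebra F E] [Algebra F F1]
  [Algebra F L] [Algebra F N] [Algebra E L] [Algebra F1 L] [Algebra E N] [Algebra F1 N] [Algebra L N]
  [IsScalarTower F E L] [IsScalarTower F F1 L] [IsScalarTower F E N] [IsScalarTower F F1 N]
  [IsScalarTower F L N] [IsScalarTower E L N] [IsScalarTower F1 L N] [IsGalois F N] [IsGalois F E]
  [IsGalois F1 L] (ψ : (N ≃ₐ[F] N) →* ℂˣ) (α : (N ≃ₐ[E] N) →* ℂˣ) (s : E ≃ₐ[F] E)
  (t : N ≃ₐ[F] N) (S : Set (HeightOneSpectrum (𝓞 E))) (N0 : ℕ),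
  s * s = 1 → (∀ g : E ≃ₐ[F] E, g ∈ Subgroup.zpowers s) →
  (∀ x : E, t (algebraMap E N x) = algebraMap E N (s x)) →
  (∀ w : HeightOneSpectrum (𝓞 N), (∃ g : N ≃ₐ[F] N, Inert w g ∧ ψ g ≠ 1) →
    ∀ g : N ≃ₐ[F] N, Pool.Agent.TeamU.act g w = w → ∀ x : E, g (algebraMap E N x) = algebraMap E N x) →
  (∀ g : N ≃ₐ[F1] N, (∀ x : E, g (algebraMap E N x) = algebraMap E N x) →
    ∀ x : L, g (algebraMap L N x) = algebraMap L N x) →
  (∀ w : HeightOneSpectrum (𝓞 E), w.under (𝓞 F) ∈ RamSet ψ ↔
    (w ∈ S ∨ Pool.Agent.TeamU.act s w ∈ S)) →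
  (∀ w ∈ S, Pool.Agent.TeamU.act s w ∉ S) →
  N0 ≠ 0 → (∀ x ∈ Ray E N0, art α (prin x) = 0) →
  TrivAt S N0 (art (ψ.comp (rs F E N)) - art α) →
  TrivAt {w | Pool.Agent.TeamU.act s w ∈ S} N0 (art α) →
  (∀ g g' : N ≃ₐ[E] N, (∀ x : L, g (algebraMap L N x) = algebraMap L N x) →
    (∀ x : N, g' x = t (g (t⁻¹ x))) → α g = α g') →
  ∀ (w : HeightOneSpectrum (𝓞 N)) (g : N ≃ₐ[F1] N), Inert w g → ψ (rs F F1 N g) = 1

end Pool.Agent.Q20.EX
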