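import Pool.Agent.Q20.LG.Trans
import Pool.Agent.Q20.EX.Stm2

/-!
# Fields between `K` and `K̄`: algebra structures, restriction of automorphisms, places and primes
-/

set_option autoImplicit false
set_option linter.unusedSectionVars false
set_option linter.deprecated false
set_option warn.classDefReducibility false

namespace Pool.Agent.Q20.EX

open NumberField IsDedekindDomain Pool.Agent.Q5.BR Pool.Agent.Q92.AR Pool.Agent.Q246.BI
  Pool.Agent.Q273.SP Pool.Agent.Q20.LG

section
variable {K : Type} [Field K] [NumberField K]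

/-- the algebra structure given by an inclusion -/
@[instance_reducible]
noncomputable def facAlg {X Y : IntermediateField K (AlgebraicClosure K)} [h : Fact (X ≤ Y)] :
    Algebra X Y := (IntermediateField.inclusion h.out).toRingHom.toAlgebra

attribute [local instance] facAlg

variable {X Y Z N : IntermediateField K (AlgebraicClosure K)}

theorem fac_apply [Fact (X ≤ Y)] (x : X) :
    ((algebraMap X Y x : Y) : AlgebraicClosure K) = (x : AlgebraicClosure K) := rfl

theorem fac_towK [Fact (X ≤ Y)] : IsScalarTower K X Y :=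
  IsScalarTower.of_algebraMap_eq fun _ => rfl

theorem fac_towO [Fact (X ≤ Y)] : IsScalarTower X Y (AlgebraicClosure K) :=
  IsScalarTower.of_algebraMap_eq fun _ => rfl

theorem fac_tow [Fact (X ≤ Y)] [Fact (Y ≤ Z)] [Fact (X ≤ Z)] : IsScalarTower X Y Z :=
  IsScalarTower.of_algebraMap_eq fun _ => rfl

theorem nf (X : IntermediateField K (AlgebraicClosure K)) [FiniteDimensional K X] : NumberField X :=
  NumberField.of_module_finite K X

theorem fac_normal [Fact (X ≤ N)] [Normal K N] : Normal X N := by
  have h1 : IsScalarTower K X N := fac_towK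
  exact Normal.tower_top_of_normal K X N

theorem fac_galois [Fact (X ≤ N)] [Normal K N] : IsGalois X N := by
  have h1 : IsScalarTower K X N := fac_towK
  have h2 : Normal X N := fac_normal
  have h3 : Algebra.IsAlgebraic X N := h2.toIsAlgebraic
  exact ⟨⟩

/-- restriction of automorphisms -/
noncomputable def resN (X N : IntermediateField K (AlgebraicClosure K)) [Fact (X ≤ N)]
    [Normal K N] : X.fixingSubgroup →* (N ≃ₐ[X] N) where
  toFun g := AlgEquiv.ofRingEquiv
    (f := (AlgEquiv.restrictNormal (g : Gal(AlgebraicClosure K/K)) N).toRingEquiv) (fun x => by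
      apply Subtype.ext
      have h1 := AlgEquiv.restrictNormal_commutes (g : Gal(AlgebraicClosure K/K)) N
        (algebraMap X N x)
      change ((AlgEquiv.restrictNormal (g : Gal(AlgebraicClosure K/K)) N (algebraMap X N x) : N) :
        AlgebraicClosure K) = (x : AlgebraicClosure K)
      have h2 : (g : Gal(AlgebraicClosure K/K)) (x : AlgebraicClosure K) = x :=
        (IntermediateField.mem_fixingSubgroup_iff X _).1 g.2 x x.2
      exact h1.trans h2)
  map_one' := by
    ext x
    have h1 := AlgEquiv.restrictNormal_commutes (1 : Gal(AlgebraicClosure K/K)) N x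
    exact h1
  map_mul' a b := by
    ext x
    have h1 := AlgEquiv.restrictNormal_commutes
      ((a * b : X.fixingSubgroup) : Gal(AlgebraicClosure K/K)) N x
    have h2 := AlgEquiv.restrictNormal_commutes (a : Gal(AlgebraicClosure K/K)) N
      (AlgEquiv.restrictNormal (b : Gal(AlgebraicClosure K/K)) N x)
    have h3 := AlgEquiv.restrictNormal_commutes (b : Gal(AlgebraicClosure K/K)) N x
    change ((AlgEquiv.restrictNormal ((a * b : X.fixingSubgroup) : Gal(AlgebraicClosure K/K)) N x :
      N) : AlgebraicClosure K) = ((AlgEquiv.restrictNormal (a : Gal(AlgebraicClosure K/K)) N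
      (AlgEquiv.restrictNormal (b : Gal(AlgebraicClosure K/K)) N x) : N) : AlgebraicClosure K)
    refine h1.trans (Eq.trans ?_ h2.symm)
    rw [h3]
    rfl

theorem resN_apply [Fact (X ≤ N)] [Normal K N] (g : X.fixingSubgroup) (x : N) :
    ((resN X N g x : N) : AlgebraicClosure K) = (g : Gal(AlgebraicClosure K/K)) x :=
  AlgEquiv.restrictNormal_commutes (g : Gal(AlgebraicClosure K/K)) N x

theorem resN_surjective [Fact (X ≤ N)] [Normal K N] : Function.Surjective (resN X N) := by
  intro y
  have h1 : IsScalarTower K X N := fac_towK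
  obtain ⟨g, hg⟩ := AlgEquiv.restrictNormalHom_surjective (F := K) (K₁ := N)
    (AlgebraicClosure K) (y.restrictScalars K)
  have hg' : ∀ x : N, g (x : AlgebraicClosure K) = ((y x : N) : AlgebraicClosure K) := by
    intro x
    have h2 := AlgEquiv.restrictNormal_commutes g N x
    have h3 : AlgEquiv.restrictNormal g N = y.restrictScalars K := hg
    rw [h3] at h2
    exact h2.symm
  have hgX : g ∈ X.fixingSubgroup := by
    rw [IntermediateField.mem_fixingSubgroup_iff]
    intro x hx
    have h4 := hg' (algebraMap X N ⟨x, hx⟩)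
    rw [y.commutes] at h4
    exact h4
  refine ⟨⟨g, hgX⟩, ?_⟩
  ext x
  rw [resN_apply]
  exact hg' x

theorem resN_one [Fact (X ≤ N)] [Normal K N] (g : X.fixingSubgroup) :
    resN X N g = 1 ↔ (g : Gal(AlgebraicClosure K/K)) ∈ N.fixingSubgroup := by
  rw [IntermediateField.mem_fixingSubgroup_iff]
  constructor
  · intro h x hx
    have h1 := resN_apply (X := X) (N := N) g ⟨x, hx⟩
    rw [h] at h1
    exact h1.symm
  · intro h
    ext x
    rw [resN_apply]
    exact h x x.2

/-- characters of `Gal(K̄/X)` which are trivial on `Gal(K̄/N)` come from `Gal(N/X)` -/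
theorem exists_fin {A : Type} [Group A] [Fact (X ≤ N)] [Normal K N] (ψ : X.fixingSubgroup →* A)
    (h : ∀ g : X.fixingSubgroup, (g : Gal(AlgebraicClosure K/K)) ∈ N.fixingSubgroup → ψ g = 1) :
    ∃ ψ' : (N ≃ₐ[X] N) →* A, ∀ g, ψ' (resN X N g) = ψ g := by
  have hk : (resN X N).ker ≤ ψ.ker := fun g hg =>
    MonoidHom.mem_ker.2 (h g ((resN_one g).1 (MonoidHom.mem_ker.1 hg)))
  refine ⟨(resN X N).liftOfSurjective resN_surjective ⟨ψ, hk⟩, fun g => ?_⟩
  exact MonoidHom.liftOfRightInverse_comp_apply _ _ _ _ g

end

end Pool.Agent.Q20.EX
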