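import Pool.Agent.Q20.LG.Surj
import Pool.Agent.Q20.LG.Exist
import Pool.Agent.Q20.EX.Abs0

/-!
# Places and primes: inertia groups at finite and at infinite level
-/

set_option autoImplicit false
set_option linter.unusedSectionVars false
set_option linter.deprecated false
set_option warn.classDefReducibility false

namespace Pool.Agent.Q20.EX

open NumberField IsDedekindDomain Pool.Agent.Q5.BR Pool.Agent.Q92.AR Pool.Agent.Q246.BI
  Pool.Agent.Q273.SP Pool.Agent.Q20.LG Pool.Agent.TeamU

section
variable {K : Type} [Field K] [NumberField K]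

attribute [local instance] facAlg

variable {X Y Z N : IntermediateField K (AlgebraicClosure K)}

/-- a criterion for Galois extensions -/
theorem galois_of_conj [Fact (X ≤ Y)] (h : ∀ g ∈ X.fixingSubgroup, ∀ u ∈ Y.fixingSubgroup,
    g⁻¹ * u * g ∈ Y.fixingSubgroup) : IsGalois X Y := by
  have hXY : X ≤ Y := Fact.out
  let Y' : IntermediateField X (AlgebraicClosure K) := IntermediateField.extendScalars hXY
  have hn : Normal X Y' := by
    rw [IntermediateField.normal_iff_forall_map_le']
    rintro σ y ⟨x, hx, rfl⟩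
    let g : X.fixingSubgroup := (IntermediateField.fixingSubgroupEquiv X).symm σ
    have hg : ∀ x, (g : Gal(AlgebraicClosure K/K)) x = σ x := fun x => rfl
    change σ x ∈ Y'
    have hx' : x ∈ Y := hx
    change σ x ∈ Y
    rw [← InfiniteGalois.fixedField_fixingSubgroup Y, IntermediateField.mem_fixedField_iff]
    intro u hu
    have h1 := h g g.2 u hu
    rw [IntermediateField.mem_fixingSubgroup_iff] at h1
    have h2 := h1 x hx'
    have h3 : (g : Gal(AlgebraicClosure K/K)) (((g : Gal(AlgebraicClosure K/K))⁻¹ * u * g :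
      Gal(AlgebraicClosure K/K)) x) = u (σ x) := by
      change (g : Gal(AlgebraicClosure K/K)) ((g : Gal(AlgebraicClosure K/K))⁻¹ (u (σ x))) = _
      exact AlgEquiv.apply_symm_apply _ _
    rw [h2] at h3
    exact h3.symm
  let e : Y' ≃ₐ[X] Y := AlgEquiv.ofRingEquiv (f := RingEquiv.refl Y) (fun x => rfl)
  have h1 : Normal X Y := Normal.of_algEquiv e
  have h3 : Algebra.IsAlgebraic X Y := h1.toIsAlgebraic
  exact ⟨⟩

/-- a place above a prime of `Y` lies above the prime of `X` below -/
theorem above_under [Fact (X ≤ Y)] [NumberField X] [NumberField Y]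
    {w : HeightOneSpectrum (𝓞 Y)} {u : AlgebraicClosure K → ℝ} (h : Above Y w u) :
    Above X (w.under (𝓞 X)) u := by
  refine ⟨h.1, fun y => ?_⟩
  have h1 : y ∈ (w.under (𝓞 X)).asIdeal ↔ algebraMap (𝓞 X) (𝓞 Y) y ∈ w.asIdeal := Iff.rfl
  rw [h1, h.2]
  rfl

theorem above_prime_eq [FiniteDimensional K X] {v v' : HeightOneSpectrum (𝓞 X)}
    {u : AlgebraicClosure K → ℝ} (h : Above X v u) (h' : Above X v' u) : v = v' :=
  above_unique h h' fun _ => Iff.rfl

/-- the inertia group at finite level, in terms of a place above -/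
theorem inert_iff [Fact (X ≤ N)] [NumberField N] [NumberField X] [FiniteDimensional K N]
    {w : HeightOneSpectrum (𝓞 N)} {u : AlgebraicClosure K → ℝ} (h : Above N w u)
    (g : N ≃ₐ[X] N) :
    Inert w g ↔ ∀ x : 𝓞 N, u ((g (x : N) - (x : N) : N) : AlgebraicClosure K) < 1 := by
  refine forall_congr' fun x => ?_
  have hgx : IsIntegral ℤ (g (x : N) - (x : N)) := by
    refine IsIntegral.sub ?_ x.2
    exact x.2.map (g.restrictScalars ℤ)
  have h1 := h.2 ⟨g (x : N) - (x : N), hgx⟩
  have h2 := w.valuation_lt_one_iff_mem (K := N) (⟨g (x : N) - (x : N), hgx⟩ : 𝓞 N)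
  exact h2.trans h1

/-- inertia elements restrict to inertia elements -/
theorem inert_res [Fact (X ≤ N)] [NumberField N] [NumberField X] [FiniteDimensional K N] [Normal K N]
    {w : HeightOneSpectrum (𝓞 N)} {u : AlgebraicClosure K → ℝ} (h : Above N w u)
    {g : X.fixingSubgroup} (hg : Ine u (g : Gal(AlgebraicClosure K/K))) :
    Inert w (resN X N g) := by
  rw [inert_iff h]
  intro x
  obtain ⟨⟨p, hp, hu⟩, -⟩ := h
  have h1 := hg.2 _ (int_le_one hp hu x)
  have h2 : ((resN X N g (x : N) - (x : N) : N) : AlgebraicClosure K) =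
      (g : Gal(AlgebraicClosure K/K)) ((x : N) : AlgebraicClosure K) - ((x : N) : AlgebraicClosure K) := by
    rw [AddSubgroupClass.coe_sub, resN_apply]
  rw [h2]
  exact h1

/-- the action on places and primes -/
theorem above_act [Fact (X ≤ N)] [NumberField N] [NumberField X] [FiniteDimensional K N] [Normal K N]
    {w : HeightOneSpectrum (𝓞 N)} {u : AlgebraicClosure K → ℝ} (h : Above N w u)
    (g : X.fixingSubgroup) :
    Above N (act (resN X N g)⁻¹ w) (fun x => u ((g : Gal(AlgebraicClosure K/K)) x)) := by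
  obtain ⟨⟨p, hp, hu⟩, h1⟩ := h
  refine ⟨⟨p, hp, hu.comp _⟩, fun y => ?_⟩
  have h2 := mem_act (resN X N g)⁻¹ w y
  rw [h2, h1]
  have h3 : (((RingOfIntegers.mapRingEquiv (resN X N g)⁻¹.toRingEquiv).symm y : 𝓞 N) : N) =
    resN X N g (y : N) := rfl
  rw [h3, resN_apply]

/-- elements of decomposition groups lift -/
theorem dec_lift [Fact (X ≤ N)] [NumberField N] [NumberField X] [FiniteDimensional K N] [Normal K N]
    {w : HeightOneSpectrum (𝓞 N)} {u : AlgebraicClosure K → ℝ} (h : Above N w u)
    (g : X.fixingSubgroup) (hg : act (resN X N g) w = w) :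
    ∃ g' : X.fixingSubgroup, Dec u (g' : Gal(AlgebraicClosure K/K)) ∧
      resN X N g' = resN X N g := by
  have hXN : X ≤ N := Fact.out
  have h1 := above_act h g
  have h2 : act (resN X N g)⁻¹ w = w := by
    have h3 : act (resN X N g) w = w := hg
    conv_lhs => rw [← h3]
    rw [← act_mul, inv_mul_cancel, act_one]
  have h1' : Above N w (fun x => u ((g : Gal(AlgebraicClosure K/K)) x)) := by
    have h4 : Above N (act (resN X N g)⁻¹ w) (fun x => u ((g : Gal(AlgebraicClosure K/K)) x)) := h1
    rwa [h2] at h4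
  obtain ⟨k, hk⟩ := transitive N w h h1'
  have hkX : (k : Gal(AlgebraicClosure K/K)) ∈ X.fixingSubgroup :=
    IntermediateField.fixingSubgroup_antitone hXN k.2
  refine ⟨g * ⟨k, hkX⟩⁻¹, fun x => ?_, ?_⟩
  · have h5 := congrFun hk ((k : Gal(AlgebraicClosure K/K))⁻¹ x)
    have h6 : (k : Gal(AlgebraicClosure K/K)) ((k : Gal(AlgebraicClosure K/K))⁻¹ x) = x :=
      AlgEquiv.apply_symm_apply _ _
    simp only [h6] at h5
    exact h5
  · have h7 : resN X N ⟨k, hkX⟩ = 1 := (resN_one _).2 k.2
    rw [map_mul, map_inv, h7, inv_one, mul_one]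

end

end Pool.Agent.Q20.EX
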