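import Pool.Agent.Q20.EX.Abs1

/-!
# Ramification of characters at finite and at infinite level
-/

set_option autoImplicit false
set_option linter.unusedSectionVars false
set_option linter.deprecated false
set_option warn.classDefReducibility false

namespace Pool.Agent.Q20.EX

open NumberField IsDedekindDomain Pool.Agent.Q5.BR Pool.Agent.Q92.AR Pool.Agent.Q246.BI
  Pool.Agent.Q273.SP Pool.Agent.Q20.LG Pool.Agent.TeamU

section
variable {K : Type} [Field K] [NumberField K]

attribute [local instance] facAlg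

variable {X Y Z N : IntermediateField K (AlgebraicClosure K)}

/-- every element with `u x ≤ 1` is a fraction of integers with denominator a unit at `u` -/
theorem exists_frac [NumberField N] {w : HeightOneSpectrum (𝓞 N)} {u : AlgebraicClosure K → ℝ}
    (h : Above N w u) {x : AlgebraicClosure K} (hx : x ∈ N) (hx1 : u x ≤ 1) :
    ∃ a b : 𝓞 N, u ((b : N) : AlgebraicClosure K) = 1 ∧
      x * ((b : N) : AlgebraicClosure K) = ((a : N) : AlgebraicClosure K) := by
  obtain ⟨⟨p, hp, hu⟩, h1⟩ := h
  have hunit : ∀ d : 𝓞 N, d ∉ w.asIdeal → u ((d : N) : AlgebraicClosure K) = 1 := by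
    intro d hd
    rw [h1] at hd
    exact le_antisymm (int_le_one hp hu d) (not_lt.1 hd)
  obtain ⟨n, d, hnd⟩ := w.exists_primeCompl_mul_eq_or_mul_eq (⟨x, hx⟩ : N)
  have hd1 : u (((d : 𝓞 N) : N) : AlgebraicClosure K) = 1 := hunit d d.2
  rcases hnd with hnd | hnd
  · refine ⟨n, d, hd1, ?_⟩
    exact congrArg (fun z : N => (z : AlgebraicClosure K)) hnd
  · have h2 : x * ((n : N) : AlgebraicClosure K) = (((d : 𝓞 N) : N) : AlgebraicClosure K) :=
      congrArg (fun z : N => (z : AlgebraicClosure K)) hnd
    refine ⟨d, n, ?_, h2⟩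
    have h3 := congrArg u h2
    rw [hu.mul, hd1] at h3
    have h4 := int_le_one hp hu n
    have h5 := hu.nonneg x
    have h6 := hu.nonneg ((n : N) : AlgebraicClosure K)
    nlinarith

/-- an automorphism which is congruent to the identity at all integers is an inertia element -/
theorem ine_of_int {p : ℕ} (hp : p.Prime) {u : AlgebraicClosure K → ℝ} (hu : IsPl p u)
    {g : Gal(AlgebraicClosure K/K)} (h : ∀ x : AlgebraicClosure K, IsIntegral ℤ x → u (g x - x) < 1) :
    Ine u g := by
  have hdec : Dec u g := by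
    intro x
    let N : IntermediateField K (AlgebraicClosure K) := IntermediateField.adjoin K {x}
    have hfd : FiniteDimensional K N :=
      IntermediateField.adjoin.finiteDimensional (Algebra.IsIntegral.isIntegral x)
    have hN : NumberField N := nf N
    have hx : x ∈ N := IntermediateField.mem_adjoin_simple_self K x
    obtain ⟨w, hw, -⟩ := exists_above N hp hu
    have hw' : Above N w (fun x => u (g x)) := by
      refine ⟨⟨p, hp, hu.comp g⟩, fun y => ?_⟩
      rw [hw.2]
      have hy : IsIntegral ℤ ((y : N) : AlgebraicClosure K) := by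
        have h1 : IsIntegral ℤ (y : N) := y.isIntegral_coe
        exact h1.map (N.val.restrictScalars ℤ)
      have h2 := h _ hy
      constructor
      · intro h3
        have h4 := hu.add (g ((y : N) : AlgebraicClosure K) - ((y : N) : AlgebraicClosure K))
          ((y : N) : AlgebraicClosure K)
        rw [sub_add_cancel] at h4
        exact lt_of_le_of_lt h4 (max_lt h2 h3)
      · intro h3
        have h4 := hu.sub hp (g ((y : N) : AlgebraicClosure K))
          (g ((y : N) : AlgebraicClosure K) - ((y : N) : AlgebraicClosure K))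
        rw [sub_sub_cancel] at h4
        exact lt_of_le_of_lt h4 (max_lt h3 h2)
    obtain ⟨k, hk⟩ := transitive N w hw hw'
    have h5 := congrFun hk x
    have h6 : (k : Gal(AlgebraicClosure K/K)) x = x :=
      (IntermediateField.mem_fixingSubgroup_iff N _).1 k.2 x hx
    simp only [h6] at h5
    exact h5
  refine ⟨hdec, fun x hx1 => ?_⟩
  let N : IntermediateField K (AlgebraicClosure K) := IntermediateField.adjoin K {x}
  have hfd : FiniteDimensional K N :=
    IntermediateField.adjoin.finiteDimensional (Algebra.IsIntegral.isIntegral x)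
  have hN : NumberField N := nf N
  have hx : x ∈ N := IntermediateField.mem_adjoin_simple_self K x
  obtain ⟨w, hw, -⟩ := exists_above N hp hu
  obtain ⟨a, b, hb, hab⟩ := exists_frac hw hx hx1
  set A : AlgebraicClosure K := ((a : N) : AlgebraicClosure K) with hA
  set B : AlgebraicClosure K := ((b : N) : AlgebraicClosure K) with hB
  have hAi : IsIntegral ℤ A := (a.isIntegral_coe).map (N.val.restrictScalars ℤ)
  have hBi : IsIntegral ℤ B := (b.isIntegral_coe).map (N.val.restrictScalars ℤ)
  have h1 := h A hAi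
  have h2 := h B hBi
  have h3 : (g x - x) * B = (g A - A) - g x * (g B - B) := by
    have h4 : g x * g B = g A := by rw [← map_mul, hab]
    rw [← hab] at h4 ⊢
    rw [map_mul]
    ring
  have h5 := congrArg u h3
  rw [hu.mul, hb, mul_one] at h5
  rw [h5]
  refine lt_of_le_of_lt (hu.sub hp _ _) (max_lt h1 ?_)
  rw [hu.mul, hdec x]
  exact lt_of_le_of_lt (mul_le_of_le_one_left (hu.nonneg _) hx1) h2

/-- sets which are unions of cosets of an open subgroup are closed -/
theorem closed_of_coset {Γ : Type} [Group Γ] [TopologicalSpace Γ] [IsTopologicalGroup Γ]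
    (A : Set Γ) (U : Subgroup Γ) (hU : IsOpen (U : Set Γ)) (h : ∀ g ∈ A, ∀ k ∈ U, g * k ∈ A) :
    IsClosed A := by
  refine ⟨isOpen_iff_mem_nhds.2 fun g hg => ?_⟩
  have h1 : {x : Γ | g⁻¹ * x ∈ U} ∈ nhds g := by
    refine IsOpen.mem_nhds (hU.preimage (continuous_const_mul g⁻¹)) ?_
    change g⁻¹ * g ∈ U
    rw [inv_mul_cancel]
    exact U.one_mem
  filter_upwards [h1] with x hx hxA
  apply hg
  have h2 := h x hxA (g⁻¹ * x)⁻¹ (U.inv_mem hx)
  have h3 : x * (g⁻¹ * x)⁻¹ = g := by group
  rwa [h3] at h2

/-- **Ramification at infinite level**: if the character `ψ` is ramified above `v` at all sufficiently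
large finite levels, then it is ramified at every place above `v`. -/
theorem lift_ram [FiniteDimensional K X] [NumberField X] (ψ : X.fixingSubgroup →* ℂˣ)
    (hψ : Smooth X ψ) (v : HeightOneSpectrum (𝓞 X)) {u : AlgebraicClosure K → ℝ}
    (hu : Above X v u) (N₀ : IntermediateField K (AlgebraicClosure K)) [FiniteDimensional K N₀]
    (H : ∀ (N : IntermediateField K (AlgebraicClosure K)) [FiniteDimensional K N] [NumberField N]
      [Normal K N] [Fact (X ≤ N)], N₀ ≤ N → ∃ w : HeightOneSpectrum (𝓞 N), w.under (𝓞 X) = v ∧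
        ∃ g : X.fixingSubgroup, Inert w (resN X N g) ∧ ψ g ≠ 1) :
    ∃ g : X.fixingSubgroup, Ine u (g : Gal(AlgebraicClosure K/K)) ∧ ψ g ≠ 1 := by
  obtain ⟨⟨p, hp, hup⟩, -⟩ := id hu
  let Z : IntermediateField K (AlgebraicClosure K) → Set X.fixingSubgroup := fun N =>
    {g | ψ g ≠ 1 ∧ ∀ x ∈ N, IsIntegral ℤ x → u ((g : Gal(AlgebraicClosure K/K)) x - x) < 1}
  let I : Type := {N : IntermediateField K (AlgebraicClosure K) //
    FiniteDimensional K N ∧ Normal K N ∧ X ⊔ N₀ ≤ N}
  obtain ⟨E, hE, hψE⟩ := hψ
  have hcl : ∀ N : I, IsClosed (Z N.1) := by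
    rintro ⟨N, hN, hNn, hle⟩
    refine closed_of_coset _ ((N ⊔ E).fixingSubgroup.subgroupOf X.fixingSubgroup)
      (have := IntermediateField.finiteDimensional_sup N E; isOpen_sub X (N ⊔ E)) ?_
    rintro g ⟨hg1, hg2⟩ k hk
    have hk' : (k : Gal(AlgebraicClosure K/K)) ∈ (N ⊔ E).fixingSubgroup :=
      Subgroup.mem_subgroupOf.1 hk
    refine ⟨?_, fun x hx hxi => ?_⟩
    · rw [map_mul, hψE k (IntermediateField.fixingSubgroup_antitone le_sup_right hk'), mul_one]
      exact hg1
    · have h1 : (k : Gal(AlgebraicClosure K/K)) x = x :=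
        (IntermediateField.mem_fixingSubgroup_iff _ _).1 hk' x
          ((le_sup_left : N ≤ N ⊔ E) hx)
      have h2 : ((g * k : X.fixingSubgroup) : Gal(AlgebraicClosure K/K)) x =
          (g : Gal(AlgebraicClosure K/K)) ((k : Gal(AlgebraicClosure K/K)) x) := rfl
      rw [h2, h1]
      exact hg2 x hx hxi
  have hne : ∀ N : I, (Z N.1).Nonempty := by
    rintro ⟨N, hN, hNn, hle⟩
    have i1 : NumberField N := nf N
    have i2 : Fact (X ≤ N) := ⟨le_sup_left.trans hle⟩
    obtain ⟨w, hwv, g, hg, hg1⟩ := H N (le_sup_right.trans hle)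
    obtain ⟨u', hu'⟩ := exists_place N w
    have h1 : Above X v u' := by
      have h2 := above_under (X := X) hu'
      rwa [hwv] at h2
    obtain ⟨k, hk⟩ := transitive X v h1 hu
    have h3 := (inert_iff (X := X) hu' (resN X N g)).1 hg
    refine ⟨k⁻¹ * g * k, ?_, fun x hx hxi => ?_⟩
    · rw [map_mul, map_mul, map_inv, mul_comm, ← mul_assoc, mul_inv_cancel, one_mul]
      exact hg1
    · have hi : IsIntegral ℤ (⟨x, hx⟩ : N) := by
        have hinj : Function.Injective (N.val.restrictScalars ℤ) := N.val.injective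
        exact (isIntegral_algHom_iff (N.val.restrictScalars ℤ) hinj).1 hxi
      have hi2 : IsIntegral ℤ (resN X N k ⟨x, hx⟩) := hi.map ((resN X N k).restrictScalars ℤ)
      have h4 := h3 ⟨resN X N k ⟨x, hx⟩, hi2⟩
      have h5 : ((resN X N g (resN X N k ⟨x, hx⟩) - resN X N k ⟨x, hx⟩ : N) :
          AlgebraicClosure K) = (k : Gal(AlgebraicClosure K/K))
          (((k⁻¹ * g * k : X.fixingSubgroup) : Gal(AlgebraicClosure K/K)) x - x) := by
        rw [AddSubgroupClass.coe_sub, resN_apply, resN_apply, map_sub]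
        congr 1
        change _ = (k : Gal(AlgebraicClosure K/K)) ((k : Gal(AlgebraicClosure K/K))⁻¹
          ((g : Gal(AlgebraicClosure K/K)) ((k : Gal(AlgebraicClosure K/K)) x)))
        exact (AlgEquiv.apply_symm_apply _ _).symm
      have h6 := congrFun hk (((k⁻¹ * g * k : X.fixingSubgroup) : Gal(AlgebraicClosure K/K)) x - x)
      rw [h6]
      simp only [← h5]
      exact h4
  have hdir : Directed (fun a b : Set X.fixingSubgroup => b ⊆ a) (fun N : I => Z N.1) := by
    rintro ⟨N, hN, hNn, hle⟩ ⟨N', hN', hNn', hle'⟩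
    refine ⟨⟨N ⊔ N', IntermediateField.finiteDimensional_sup _ _, inferInstance,
      hle.trans le_sup_left⟩, ?_, ?_⟩
    · rintro g ⟨h1, h2⟩
      exact ⟨h1, fun x hx => h2 x ((le_sup_left : N ≤ N ⊔ N') hx)⟩
    · rintro g ⟨h1, h2⟩
      exact ⟨h1, fun x hx => h2 x ((le_sup_right : N' ≤ N ⊔ N') hx)⟩
  have hbig : ∀ L : IntermediateField K (AlgebraicClosure K), FiniteDimensional K L →
      ∃ N : I, L ≤ N.1 := by
    intro L hL
    have h1 : FiniteDimensional K ((L ⊔ (X ⊔ N₀) : IntermediateField K (AlgebraicClosure K))) := by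
      have h2 := IntermediateField.finiteDimensional_sup X N₀
      exact IntermediateField.finiteDimensional_sup L (X ⊔ N₀)
    let M := IntermediateField.normalClosure K
      (L ⊔ (X ⊔ N₀) : IntermediateField K (AlgebraicClosure K)) (AlgebraicClosure K)
    have h3 : (L ⊔ (X ⊔ N₀) : IntermediateField K (AlgebraicClosure K)) ≤ M :=
      IntermediateField.le_normalClosure _
    exact ⟨⟨M, inferInstance, inferInstance, le_sup_right.trans h3⟩, le_sup_left.trans h3⟩
  have hI : Nonempty I := ⟨(hbig ⊥ inferInstance).choose⟩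
  obtain ⟨g, hg⟩ := IsCompact.nonempty_iInter_of_directed_nonempty_isCompact_isClosed
    (fun N : I => Z N.1) hdir hne (fun N => (hcl N).isCompact) hcl
  rw [Set.mem_iInter] at hg
  refine ⟨g, ine_of_int hp hup fun x hx => ?_, (hg hI.some).1⟩
  have hfd : FiniteDimensional K (IntermediateField.adjoin K {x}) :=
    IntermediateField.adjoin.finiteDimensional (Algebra.IsIntegral.isIntegral x)
  obtain ⟨N, hN⟩ := hbig _ hfd
  exact (hg N).2 x (hN (IntermediateField.mem_adjoin_simple_self K x)) hx

end

end Pool.Agent.Q20.EX
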