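import Pool.Agent.Q20.EX.Abs3

/-!
# Characters with given local components in `K̄`
-/

set_option autoImplicit false
set_option linter.unusedSectionVars false
set_option linter.deprecated false
set_option warn.classDefReducibility false

namespace Pool.Agent.Q20.EX

open NumberField IsDedekindDomain Pool.Agent.Q5.BR Pool.Agent.Q92.AR Pool.Agent.Q246.BI
  Pool.Agent.Q273.SP Pool.Agent.Q20.LG Pool.Agent.TeamU Pool.Agent.Q125.AR

section
variable {K : Type} [Field K] [NumberField K]

attribute [local instance] facAlg

/-- characters of Galois groups of abstract extensions as characters of absolute Galois groups -/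
theorem abs_char {E : IntermediateField K (AlgebraicClosure K)} [FiniteDimensional K E]
    [NumberField E] (M : Type) [Field M] [NumberField M] [Algebra E M] [IsGalois E M]
    (α : (M ≃ₐ[E] M) →* ℂˣ) : ∃ (α' : E.fixingSubgroup →* ℂˣ)
    (N₂ : IntermediateField K (AlgebraicClosure K)), FiniteDimensional K N₂ ∧
    (∀ g : E.fixingSubgroup, (g : Gal(AlgebraicClosure K/K)) ∈ N₂.fixingSubgroup → α' g = 1) ∧
    ∀ (N : IntermediateField K (AlgebraicClosure K)) [FiniteDimensional K N] [NumberField N]
      [Normal K N] [Fact (E ≤ N)], N₂ ≤ N → ∀ β : (N ≃ₐ[E] N) →* ℂˣ,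
      (∀ g, β (resN E N g) = α' g) → ∀ N0 : ℕ, Ram E N N0 → ∀ D ∈ Pr E N0, art β D = art α D := by
  have hfdM : FiniteDimensional E M := Module.Finite.of_restrictScalars_finite ℚ E M
  have hcl : IsAlgClosed (AlgebraicClosure K) := inferInstance
  let j : M →ₐ[E] AlgebraicClosure K := IsAlgClosed.lift
  let i1 : Algebra M (AlgebraicClosure K) := j.toRingHom.toAlgebra
  have i2 : IsScalarTower E M (AlgebraicClosure K) :=
    IsScalarTower.of_algebraMap_eq fun x => (j.commutes x).symm
  let α' : E.fixingSubgroup →* ℂˣ := α.comp ((AlgEquiv.restrictNormalHom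
    (K₁ := AlgebraicClosure K) M).comp (IntermediateField.fixingSubgroupEquiv E).toMonoidHom)
  let N₂ : IntermediateField K (AlgebraicClosure K) := j.fieldRange.restrictScalars K
  have hN₂ : FiniteDimensional K N₂ := by
    have h1 : FiniteDimensional E j.fieldRange :=
      (AlgEquiv.ofInjectiveField j).toLinearEquiv.finiteDimensional
    have h2 : IsScalarTower K E j.fieldRange := inferInstance
    exact FiniteDimensional.trans K E j.fieldRange
  have hker : ∀ g : E.fixingSubgroup, (g : Gal(AlgebraicClosure K/K)) ∈ N₂.fixingSubgroup →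
      AlgEquiv.restrictNormalHom (K₁ := AlgebraicClosure K) M
        (IntermediateField.fixingSubgroupEquiv E g) = 1 := by
    intro g hg
    ext x
    apply j.injective
    have h1 := AlgEquiv.restrictNormal_commutes
      (IntermediateField.fixingSubgroupEquiv E g) M x
    refine h1.trans ?_
    exact (IntermediateField.mem_fixingSubgroup_iff N₂ _).1 hg (j x) ⟨x, rfl⟩
  refine ⟨α', N₂, hN₂, fun g hg => ?_, ?_⟩
  · have h1 := hker g hg
    change α (AlgEquiv.restrictNormalHom (K₁ := AlgebraicClosure K) M
        (IntermediateField.fixingSubgroupEquiv E g)) = 1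
    rw [h1, map_one]
  intro N j1 j2 j3 j4 hN₂N β hβ N0 hR D hD
  have hjx : ∀ x : M, j x ∈ N := fun x => hN₂N ⟨x, rfl⟩
  let jN : M →+* N := j.toRingHom.codRestrict N.toSubring hjx
  let i3 : Algebra M N := jN.toAlgebra
  have i4 : IsScalarTower E M N := IsScalarTower.of_algebraMap_eq fun x => Subtype.ext (by
    change (x : AlgebraicClosure K) = j (algebraMap E M x)
    exact (j.commutes x).symm)
  have i5 : IsGalois E N := fac_galois
  have h1 : β = α.comp (AlgEquiv.restrictNormalHom (K₁ := N) M) := by
    refine MonoidHom.ext fun y => ?_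
    obtain ⟨g, rfl⟩ := resN_surjective y
    rw [hβ]
    change α _ = α _
    congr 1
    ext x
    apply j.injective
    have h2 := AlgEquiv.restrictNormal_commutes
      (IntermediateField.fixingSubgroupEquiv E g) M x
    have h3 := congrArg (fun z : N => (z : AlgebraicClosure K))
      (AlgEquiv.restrictNormal_commutes (resN E N g) M x)
    have h4 : ((resN E N g (algebraMap M N x) : N) : AlgebraicClosure K) =
        (g : Gal(AlgebraicClosure K/K)) (j x) := resN_apply g _
    exact h2.trans (h4.symm.trans h3.symm)
  rw [h1]
  exact art_inf α hR hD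

end

end Pool.Agent.Q20.EX
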