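import Pool.Agent.Q20.EX.Abs4

/-!
# The main step of the dihedral twist theorem in `K̄`
-/

set_option autoImplicit false
set_option linter.unusedSectionVars false
set_option linter.deprecated false
set_option warn.classDefReducibility false

namespace Pool.Agent.Q20.EX

open NumberField IsDedekindDomain Pool.Agent.Q5.BR Pool.Agent.Q92.AR Pool.Agent.Q246.BI
  Pool.Agent.Q273.SP Pool.Agent.Q20.LG Pool.Agent.TeamU Pool.Agent.Q125.AR

section
variable {K : Type} [Field K] [NumberField K]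

attribute [local instance] facAlg

/-- the action of an element of `Gal(K̄/F)` on the normal extension `E` of `F` -/
theorem exists_resE {F E : IntermediateField K (AlgebraicClosure K)} [Fact (F ≤ E)] [IsGalois F E]
    (s : F.fixingSubgroup) : ∃ σ : E ≃ₐ[F] E, ∀ x : E, ((σ x : E) : AlgebraicClosure K) =
      (s : Gal(AlgebraicClosure K/K)) x := by
  have h1 : IsScalarTower F E (AlgebraicClosure K) := fac_towO
  refine ⟨AlgEquiv.restrictNormalHom (K₁ := AlgebraicClosure K) E
    (IntermediateField.fixingSubgroupEquiv F s), fun x => ?_⟩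
  exact AlgEquiv.restrictNormal_commutes (IntermediateField.fixingSubgroupEquiv F s) E x

/-- a quadratic extension with nontrivial automorphism given by `s` -/
structure Quad (F E : IntermediateField K (AlgebraicClosure K)) (s : F.fixingSubgroup) : Prop where
  le : F ≤ E
  conj : ∀ g ∈ F.fixingSubgroup, ∀ u ∈ E.fixingSubgroup, g⁻¹ * u * g ∈ E.fixingSubgroup
  not : (s : Gal(AlgebraicClosure K/K)) ∉ E.fixingSubgroup
  two : ∀ g : F.fixingSubgroup, (g : Gal(AlgebraicClosure K/K)) ∈ E.fixingSubgroup ∨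
    ((s⁻¹ * g : F.fixingSubgroup) : Gal(AlgebraicClosure K/K)) ∈ E.fixingSubgroup

theorem Quad.sq {F E : IntermediateField K (AlgebraicClosure K)} {s : F.fixingSubgroup}
    (h : Quad F E s) : ((s * s : F.fixingSubgroup) : Gal(AlgebraicClosure K/K)) ∈ E.fixingSubgroup := by
  rcases h.two (s * s) with h1 | h1
  · exact h1
  · exfalso
    rw [← mul_assoc, inv_mul_cancel, one_mul] at h1
    exact h.not h1

/-- the element `s g s⁻¹` -/
noncomputable def Quad.cj {F E : IntermediateField K (AlgebraicClosure K)} {s : F.fixingSubgroup}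
    (h : Quad F E s) : E.fixingSubgroup →* E.fixingSubgroup where
  toFun g := ⟨(s : Gal(AlgebraicClosure K/K)) * g * (s : Gal(AlgebraicClosure K/K))⁻¹, by
    have h1 := h.conj _ (F.fixingSubgroup.inv_mem s.2) g g.2
    rwa [inv_inv] at h1⟩
  map_one' := by
    apply Subtype.ext
    change (s : Gal(AlgebraicClosure K/K)) * 1 * (s : Gal(AlgebraicClosure K/K))⁻¹ = 1
    group
  map_mul' a b := by
    apply Subtype.ext
    change (s : Gal(AlgebraicClosure K/K)) * (a * b) * (s : Gal(AlgebraicClosure K/K))⁻¹ =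
      ((s : Gal(AlgebraicClosure K/K)) * a * (s : Gal(AlgebraicClosure K/K))⁻¹) *
      ((s : Gal(AlgebraicClosure K/K)) * b * (s : Gal(AlgebraicClosure K/K))⁻¹)
    group

theorem Quad.cj_coe {F E : IntermediateField K (AlgebraicClosure K)} {s : F.fixingSubgroup}
    (h : Quad F E s) (g : E.fixingSubgroup) : ((h.cj g : E.fixingSubgroup) :
      Gal(AlgebraicClosure K/K)) = (s : Gal(AlgebraicClosure K/K)) * g *
      (s : Gal(AlgebraicClosure K/K))⁻¹ := rfl

/-- a normal finite extension of `K` containing given fields -/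
theorem exists_normal (X : IntermediateField K (AlgebraicClosure K)) [FiniteDimensional K X] :
    ∃ (N : IntermediateField K (AlgebraicClosure K)) (_ : FiniteDimensional K N)
      (_ : NumberField N) (_ : Normal K N), X ≤ N :=
  ⟨IntermediateField.normalClosure K X (AlgebraicClosure K), inferInstance,
    nf (IntermediateField.normalClosure K X (AlgebraicClosure K)), inferInstance,
    IntermediateField.le_normalClosure _⟩

variable (hNRM : S_NRM) (hNCG : S_NCG) (hGOOD : S_GOOD) (hUNR : S_UNR) (hTRIV : S_TRIV)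
  (hRES : S_RES) (hTRV2 : S_TRV2) (hDIH : S_DIH) (hTW2 : S_TW2) (hLOC : S_LOC)

include hNRM hNCG hGOOD hUNR hTRIV hRES hTRV2 hDIH hTW2 hLOC in
/-- **The main step.** -/
theorem twist_main {F E : IntermediateField K (AlgebraicClosure K)} [FiniteDimensional K F]
    [FiniteDimensional K E] {s : F.fixingSubgroup} (hq : Quad F E s)
    (ψ : F.fixingSubgroup →* ℂˣ) (hψ : Smooth F ψ)
    (hloc : ∀ u : AlgebraicClosure K → ℝ, (∃ p : ℕ, p.Prime ∧ IsPl p u) → RamAt ψ u →
      ∀ g : F.fixingSubgroup, Dec u (g : Gal(AlgebraicClosure K/K)) →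
        (g : Gal(AlgebraicClosure K/K)) ∈ E.fixingSubgroup) :
    ∃ α : E.fixingSubgroup →* ℂˣ, Smooth E α ∧
      ∀ (F₁ : IntermediateField K (AlgebraicClosure K)), FiniteDimensional K F₁ → F ≤ F₁ →
      (∀ g : E.fixingSubgroup, (g : Gal(AlgebraicClosure K/K)) ∈ F₁.fixingSubgroup →
        α g = α (hq.cj g)) →
      ∀ u : AlgebraicClosure K → ℝ, (∃ p : ℕ, p.Prime ∧ IsPl p u) → ∀ g : F.fixingSubgroup,
        (g : Gal(AlgebraicClosure K/K)) ∈ F₁.fixingSubgroup → Ine u (g : Gal(AlgebraicClosure K/K)) →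
        ψ g = 1 := by
  classical
  have iF : NumberField F := nf F
  have iE : NumberField E := nf E
  have fFE : Fact (F ≤ E) := ⟨hq.le⟩
  have gFE : IsGalois F E := galois_of_conj hq.conj
  obtain ⟨σ, hσ⟩ := exists_resE (E := E) s
  -- the level `N₁`
  obtain ⟨N₁, a1, a2, a3, a4, hEN₁, hψN₁, hram⟩ := ram_const ψ hψ E
  have fEN₁ : Fact (E ≤ N₁) := ⟨hEN₁⟩
  have gEN₁ : IsGalois E N₁ := fac_galois
  -- Galois group of `E/F`
  have hσ2 : σ * σ = 1 := by
    ext x
    change ((σ (σ x) : E) : AlgebraicClosure K) = x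
    rw [hσ, hσ]
    exact (IntermediateField.mem_fixingSubgroup_iff E _).1 hq.sq x x.2
  have hgen : ∀ g : E ≃ₐ[F] E, g = 1 ∨ g = σ := by
    intro g
    have h1 : IsScalarTower F E (AlgebraicClosure K) := fac_towO
    obtain ⟨τ, hτ⟩ := AlgEquiv.restrictNormalHom_surjective (F := F) (K₁ := E)
      (AlgebraicClosure K) g
    obtain ⟨k, rfl⟩ := (IntermediateField.fixingSubgroupEquiv F).surjective τ
    have hgk : ∀ x : E, ((g x : E) : AlgebraicClosure K) =
        (k : Gal(AlgebraicClosure K/K)) x := by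
      intro x
      rw [← hτ]
      exact AlgEquiv.restrictNormal_commutes (IntermediateField.fixingSubgroupEquiv F k) E x
    rcases hq.two k with h2 | h2
    · left
      ext x
      rw [hgk]
      exact (IntermediateField.mem_fixingSubgroup_iff E _).1 h2 x x.2
    · right
      ext x
      rw [hgk, hσ]
      have h3 := (IntermediateField.mem_fixingSubgroup_iff E _).1 h2 x x.2
      have h4 := congrArg (s : Gal(AlgebraicClosure K/K)) h3
      refine Eq.trans ?_ h4
      change _ = (s : Gal(AlgebraicClosure K/K)) ((s : Gal(AlgebraicClosure K/K))⁻¹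
        ((k : Gal(AlgebraicClosure K/K)) x))
      exact (AlgEquiv.apply_symm_apply _ _).symm
  -- the sets
  have hB : (AR F N₁ ψ).Finite := ar_finite ψ hψN₁
  have hover : ∀ v : HeightOneSpectrum (𝓞 F), ∃ w : HeightOneSpectrum (𝓞 E),
      w.under (𝓞 F) = v := by
    intro v
    obtain ⟨u, hu⟩ := exists_place F v
    obtain ⟨⟨p, hp, hup⟩, -⟩ := id hu
    obtain ⟨w, hw, -⟩ := exists_above E hp hup
    exact ⟨w, above_prime_eq (above_under hw) hu⟩
  choose ch hch using hover
  let S : Set (HeightOneSpectrum (𝓞 E)) := ch '' AR F N₁ ψ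
  let S' : Set (HeightOneSpectrum (𝓞 E)) := {w | act σ w ∈ S}
  have hSfin : S.Finite := hB.image ch
  have hinv : ∀ w : HeightOneSpectrum (𝓞 E), act σ (act σ w) = w := by
    intro w
    rw [← act_mul, hσ2, act_one]
  have hS'fin : S'.Finite := by
    refine hSfin.preimage fun a _ b _ hab => ?_
    rw [← hinv a, ← hinv b, hab]
  have hund : ∀ w : HeightOneSpectrum (𝓞 E), (act σ w).under (𝓞 F) = w.under (𝓞 F) := by
    intro w
    exact HeightOneSpectrum.ext (over_act (k := F) (L := E) (v := w.under (𝓞 F)) σ rfl)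
  have hSd : ∀ w ∈ S, act σ w ∉ S := by
    rintro w ⟨v, hv, rfl⟩ ⟨v', hv', h1⟩
    have h2 : v' = v := by
      rw [← hch v', h1, hund, hch]
    subst h2
    -- `σ` fixes the prime `ch v`
    obtain ⟨u, hu⟩ := exists_place E (ch v')
    have huF : Above F v' u := by
      have h3 := above_under (X := F) hu
      rwa [hch] at h3
    have hR := hram v' hv' u huF
    have hu' : Above E (ch v') (fun x => u ((s : Gal(AlgebraicClosure K/K)) x)) := by
      obtain ⟨⟨p, hp, hup⟩, h3⟩ := id hu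
      refine ⟨⟨p, hp, hup.comp _⟩, fun y => ?_⟩
      have h4 : y ∈ (ch v').asIdeal ↔ RingOfIntegers.mapRingEquiv σ.toRingEquiv y ∈
          (act σ (ch v')).asIdeal := by
        rw [mem_act, RingEquiv.symm_apply_apply]
      rw [h4, ← h1, h3]
      have h5 : (((RingOfIntegers.mapRingEquiv σ.toRingEquiv y : 𝓞 E) : E) :
          AlgebraicClosure K) = (s : Gal(AlgebraicClosure K/K)) (y : E) := hσ (y : E)
      rw [h5]
    obtain ⟨k, hk⟩ := transitive E (ch v') hu hu'
    have hkF : (k : Gal(AlgebraicClosure K/K)) ∈ F.fixingSubgroup :=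
      IntermediateField.fixingSubgroup_antitone hq.le k.2
    have h6 := hloc u hu.1 hR (s * ⟨k, hkF⟩⁻¹) (fun x => by
      have h7 := congrFun hk ((k : Gal(AlgebraicClosure K/K))⁻¹ x)
      have h8 : (k : Gal(AlgebraicClosure K/K)) ((k : Gal(AlgebraicClosure K/K))⁻¹ x) = x :=
        AlgEquiv.apply_symm_apply _ _
      simp only [h8] at h7
      exact h7)
    apply hq.not
    have h9 := E.fixingSubgroup.mul_mem h6 k.2
    have h10 : ((s * ⟨k, hkF⟩⁻¹ : F.fixingSubgroup) : Gal(AlgebraicClosure K/K)) *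
        (k : Gal(AlgebraicClosure K/K)) = s := by
      change (s : Gal(AlgebraicClosure K/K)) * (k : Gal(AlgebraicClosure K/K))⁻¹ *
        (k : Gal(AlgebraicClosure K/K)) = s
      group
    rwa [h10] at h9
  have hS5 : ∀ w : HeightOneSpectrum (𝓞 E), w.under (𝓞 F) ∈ AR F N₁ ψ ↔ (w ∈ S ∨ act σ w ∈ S) := by
    intro w
    constructor
    · intro h
      obtain ⟨τ, hτ⟩ := exists_act (k := F) (L := E) (P := w) (Q := ch (w.under (𝓞 F)))
        (v := w.under (𝓞 F)) rfl (congrArg HeightOneSpectrum.asIdeal (hch (w.under (𝓞 F))))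
      rcases hgen τ with rfl | rfl
      · left
        rw [act_one] at hτ
        exact ⟨_, h, hτ.symm⟩
      · right
        exact ⟨_, h, hτ.symm⟩
    · rintro (⟨v, hv, rfl⟩ | ⟨v, hv, h⟩)
      · rwa [hch]
      · rwa [← hund, ← h, hch]
  -- the character
  obtain ⟨ψ₁, hψ₁⟩ := exists_fin (X := F) (N := N₁) ψ hψN₁
  have tFEN₁ : IsScalarTower F E N₁ := fac_tow
  obtain ⟨M', m1, m2, m3, m4, α', N', hN', hR1, hR2, hS1, hS2, hr1, hr2, ht1, ht2⟩ :=
    hLOC E N₁ (ψ₁.comp (rs F E N₁)) S S' hSfin hS'fin (Set.disjoint_left.2 fun w h1 h2 =>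
      hSd w h1 h2)
  obtain ⟨α, N₂, hN₂, hαN₂, hα⟩ := abs_char (E := E) M' α'
  refine ⟨α, ⟨N₂, hN₂, hαN₂⟩, fun F₁ hF₁ hFF₁ hβ u hu g hg hgI => ?_⟩
  -- the level `N`
  have f12 : FiniteDimensional K (N₁ ⊔ N₂ : IntermediateField K (AlgebraicClosure K)) :=
    IntermediateField.finiteDimensional_sup N₁ N₂
  have f13 : FiniteDimensional K (N₁ ⊔ N₂ ⊔ F₁ : IntermediateField K (AlgebraicClosure K)) :=
    IntermediateField.finiteDimensional_sup (N₁ ⊔ N₂) F₁
  obtain ⟨N, n1, n2, n3, hN⟩ := exists_normal (N₁ ⊔ N₂ ⊔ F₁)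
  have hN₁N : N₁ ≤ N := (le_sup_left.trans le_sup_left).trans hN
  have hN₂N : N₂ ≤ N := (le_sup_right.trans le_sup_left).trans hN
  have hF₁N : F₁ ≤ N := le_sup_right.trans hN
  let L : IntermediateField K (AlgebraicClosure K) := F₁ ⊔ E
  have f14 : FiniteDimensional K L := IntermediateField.finiteDimensional_sup F₁ E
  have iF₁ : NumberField F₁ := nf F₁
  have iL : NumberField L := nf L
  have b1 : Fact (F ≤ F₁) := ⟨hFF₁⟩
  have b2 : Fact (F ≤ L) := ⟨hFF₁.trans le_sup_left⟩
  have b3 : Fact (F ≤ N) := ⟨hFF₁.trans hF₁N⟩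
  have b4 : Fact (E ≤ L) := ⟨le_sup_right⟩
  have b5 : Fact (F₁ ≤ L) := ⟨le_sup_left⟩
  have b6 : Fact (E ≤ N) := ⟨hEN₁.trans hN₁N⟩
  have b7 : Fact (F₁ ≤ N) := ⟨hF₁N⟩
  have b8 : Fact (L ≤ N) := ⟨sup_le hF₁N (hEN₁.trans hN₁N)⟩
  have b9 : Fact (N₁ ≤ N) := ⟨hN₁N⟩
  have t1 : IsScalarTower F E L := fac_tow
  have t2 : IsScalarTower F F₁ L := fac_tow
  have t3 : IsScalarTower F E N := fac_tow
  have t4 : IsScalarTower F F₁ N := fac_tow
  have t5 : IsScalarTower F L N := fac_tow
  have t6 : IsScalarTower E L N := fac_tow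
  have t7 : IsScalarTower F₁ L N := fac_tow
  have t8 : IsScalarTower E N₁ N := fac_tow
  have g1 : IsGalois F N := fac_galois
  have g2 : IsGalois E N := fac_galois
  have g3 : IsGalois F₁ L := galois_of_conj fun a ha b hb => by
    rw [IntermediateField.fixingSubgroup_sup] at hb ⊢
    refine ⟨F₁.fixingSubgroup.mul_mem (F₁.fixingSubgroup.mul_mem
      (F₁.fixingSubgroup.inv_mem ha) hb.1) ha, ?_⟩
    exact hq.conj a (IntermediateField.fixingSubgroup_antitone hFF₁ ha) b hb.2
  -- the characters at level `N`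
  have hψN : ∀ g : F.fixingSubgroup, (g : Gal(AlgebraicClosure K/K)) ∈ N.fixingSubgroup →
      ψ g = 1 := fun g hg => hψN₁ g (IntermediateField.fixingSubgroup_antitone hN₁N hg)
  obtain ⟨ψN, hψN'⟩ := exists_fin (X := F) (N := N) ψ hψN
  obtain ⟨αN, hαN'⟩ := exists_fin (X := E) (N := N) α fun g hg =>
    hαN₂ g (IntermediateField.fixingSubgroup_antitone hN₂N hg)
  have hAR : AR F N ψ = AR F N₁ ψ := by
    refine Set.Subset.antisymm (ar_anti hN₁N ψ) fun v hv => ?_
    obtain ⟨u, hu⟩ := exists_place F v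
    exact ar_of_ramAt ψ hu (hram v hv u hu)
  have hRS : RamSet ψN = AR F N₁ ψ := (ar_eq ψ ψN hψN').trans hAR
  obtain ⟨Nr, hNr, hRam, -⟩ := recip E N (1 : (N ≃ₐ[E] N) →* ℂˣ)
  have hN0 : N' * Nr ≠ 0 := mul_ne_zero hN' hNr
  have hRam0 : Ram E N (N' * Nr) := Ram_mono (dvd_mul_left Nr N') hRam
  have hart : ∀ D ∈ Pr E (N' * Nr), art αN D = art α' D := fun D hD =>
    hα N hN₂N αN hαN' _ hRam0 D hD
  have hres1 : ∀ g : E.fixingSubgroup, ψN (rs F E N (resN E N g)) = ψ ⟨g,
      IntermediateField.fixingSubgroup_antitone hq.le g.2⟩ := by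
    intro g
    rw [← hψN']
    rfl
  have hres2 : ∀ g : E.fixingSubgroup, ψ₁ (rs F E N₁ (resN E N₁ g)) = ψ ⟨g,
      IntermediateField.fixingSubgroup_antitone hq.le g.2⟩ := by
    intro g
    rw [← hψ₁]
    rfl
  have hψinf : ψN.comp (rs F E N) = (ψ₁.comp (rs F E N₁)).comp
      (AlgEquiv.restrictNormalHom (K₁ := N) N₁) := by
    refine MonoidHom.ext fun y => ?_
    obtain ⟨g, rfl⟩ := resN_surjective y
    change ψN (rs F E N (resN E N g)) = ψ₁ (rs F E N₁ (AlgEquiv.restrictNormalHom (K₁ := N) N₁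
      (resN E N g)))
    have h1 : AlgEquiv.restrictNormalHom (K₁ := N) N₁ (resN E N g) = resN E N₁ g := by
      ext x
      have h2 := congrArg (fun z : N => (z : AlgebraicClosure K))
        (AlgEquiv.restrictNormal_commutes (resN E N g) N₁ x)
      rw [resN_apply]
      refine h2.trans ?_
      exact resN_apply (X := E) (N := N) g _
    rw [h1, hres1, hres2]
  have hartψ : ∀ D ∈ Pr E (N' * Nr), art (ψN.comp (rs F E N)) D = art (ψ₁.comp (rs F E N₁)) D := by
    intro D hD
    rw [hψinf]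
    exact art_inf _ hRam0 hD
  -- the main step
  have key := hTW2 hNRM hNCG hGOOD hUNR hTRIV hRES hTRV2 hDIH F E F₁ L N ψN αN σ (resN F N s) S
    (N' * Nr) hσ2 ?_ ?_ ?_ ?_ ?_ hSd hN0 ?_ ?_ ?_ ?_
  · obtain ⟨p, hp, hup⟩ := hu
    obtain ⟨w, hw, -⟩ := exists_above N hp hup
    have h1 := key w (resN F₁ N ⟨g, hg⟩) (inert_res hw hgI)
    have h2 : rs F F₁ N (resN F₁ N ⟨g, hg⟩) = resN F N g := by
      ext x
      rw [resN_apply]
      exact resN_apply (X := F₁) ⟨(g : Gal(AlgebraicClosure K/K)), hg⟩ x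
    rw [h2, hψN'] at h1
    exact h1
  · intro g
    rcases hgen g with rfl | rfl
    · exact Subgroup.one_mem _
    · exact Subgroup.mem_zpowers _
  · intro x
    apply Subtype.ext
    rw [resN_apply]
    exact (hσ x).symm
  · rintro w ⟨g₀, hg₀, hg₁⟩ g' hg' x
    have hv : w.under (𝓞 F) ∈ AR F N₁ ψ := by
      rw [← hRS]
      exact ⟨w, rfl, g₀, hg₀, hg₁⟩
    obtain ⟨u', hu'⟩ := exists_place N w
    have hR := hram _ hv u' (above_under hu')
    obtain ⟨k, rfl⟩ := resN_surjective g'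
    obtain ⟨k', hk', hkk⟩ := dec_lift hu' k hg'
    have h1 := hloc u' hu'.1 hR k' hk'
    rw [← hkk]
    apply Subtype.ext
    rw [resN_apply]
    exact (IntermediateField.mem_fixingSubgroup_iff E _).1 h1 x x.2
  · intro g' hg' x
    obtain ⟨k, rfl⟩ := resN_surjective g'
    have hkE : (k : Gal(AlgebraicClosure K/K)) ∈ E.fixingSubgroup := by
      rw [IntermediateField.mem_fixingSubgroup_iff]
      intro y hy
      have h1 := congrArg (fun z : N => (z : AlgebraicClosure K)) (hg' ⟨y, hy⟩)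
      simp only [resN_apply] at h1
      exact h1
    have hkL : (k : Gal(AlgebraicClosure K/K)) ∈ L.fixingSubgroup := by
      rw [IntermediateField.fixingSubgroup_sup]
      exact ⟨k.2, hkE⟩
    apply Subtype.ext
    rw [resN_apply]
    exact (IntermediateField.mem_fixingSubgroup_iff L _).1 hkL x x.2
  · intro w
    rw [hRS]
    exact hS5 w
  · intro x hx
    have hx' : x ∈ Ray E N' := Ray_mono (dvd_mul_right N' Nr) hx
    rw [hart _ (prin_mem_Pr hx)]
    exact hr2 x hx'
  · intro x h1 h2 h3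
    rw [AddMonoidHom.sub_apply, hartψ _ (prin_mem h1), hart _ (prin_mem h1)]
    exact ht1.mono (dvd_mul_right N' Nr) x h1 h2 h3
  · intro x h1 h2 h3
    rw [hart _ (prin_mem h1)]
    exact ht2.mono (dvd_mul_right N' Nr) x h1 h2 h3
  · intro g₁ g₂ hg₁ hg₂
    obtain ⟨k, rfl⟩ := resN_surjective g₁
    have hkL : (k : Gal(AlgebraicClosure K/K)) ∈ L.fixingSubgroup := by
      rw [IntermediateField.mem_fixingSubgroup_iff]
      intro y hy
      have h1 := congrArg (fun z : N => (z : AlgebraicClosure K)) (hg₁ ⟨y, hy⟩)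
      simp only [resN_apply] at h1
      exact h1
    rw [IntermediateField.fixingSubgroup_sup] at hkL
    have h1 := hβ k hkL.1
    have h2 : g₂ = resN E N (hq.cj k) := by
      ext x
      rw [hg₂, resN_apply, resN_apply, resN_apply, ← map_inv, resN_apply]
      rfl
    rw [h2, hαN', hαN', h1]

end

end Pool.Agent.Q20.EX
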