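import Mathlib

/-!
# The dihedral identity of permutation characters
-/

set_option autoImplicit false
set_option linter.unusedSectionVars false

namespace Pool.Agent.Q20.EX.Dih

open scoped Classical

variable {Γ : Type} [Group Γ]

/-- `β` is a character with finite image of the subgroup `Δ` of index two, `s ∉ Δ`,
`β(s x s⁻¹) = β(x)⁻¹` and `β(s²) = 1` -/
structure DData (Δ : Subgroup Γ) (s : Γ) (β : Δ →* ℂˣ) : Prop where
  not : s ∉ Δ
  two : ∀ g, g ∈ Δ ∨ s⁻¹ * g ∈ Δ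
  nrm : ∀ g ∈ Δ, s * g * s⁻¹ ∈ Δ
  inv : ∀ (g : Δ) (h : s * g * s⁻¹ ∈ Δ), β ⟨s * g * s⁻¹, h⟩ = (β g)⁻¹
  sq : ∀ h : s * s ∈ Δ, β ⟨s * s, h⟩ = 1
  fin : Finite β.range

variable {Δ : Subgroup Γ} {s : Γ} {β : Δ →* ℂˣ}

theorem DData.smem (h : DData Δ s β) : s * s ∈ Δ := by
  rcases h.two (s * s) with h1 | h1
  · exact h1
  · rw [← mul_assoc, inv_mul_cancel, one_mul] at h1
    exact absurd h1 h.not

theorem DData.nrm' (h : DData Δ s β) {g : Γ} (hg : g ∈ Δ) : s⁻¹ * g * s ∈ Δ := by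
  have h1 := h.nrm g hg
  have h2 : s⁻¹ * g * s = (s * s)⁻¹ * (s * g * s⁻¹) * (s * s) := by group
  rw [h2]
  exact Δ.mul_mem (Δ.mul_mem (Δ.inv_mem h.smem) h1) h.smem

theorem DData.mul_not (h : DData Δ s β) {g : Γ} (hg : g ∈ Δ) : s * g ∉ Δ := by
  intro h1
  apply h.not
  have h2 := Δ.mul_mem h1 (Δ.inv_mem hg)
  rwa [mul_inv_cancel_right] at h2

theorem DData.exists_eq (h : DData Δ s β) {g : Γ} (hg : g ∉ Δ) : ∃ x : Δ, g = s * x := by
  rcases h.two g with h1 | h1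
  · exact absurd h1 hg
  · exact ⟨⟨s⁻¹ * g, h1⟩, by rw [mul_inv_cancel_left]⟩

theorem DData.inv' (h : DData Δ s β) (g : Δ) : β ⟨s⁻¹ * g * s, h.nrm' g.2⟩ = (β g)⁻¹ := by
  have h1 := h.inv ⟨s⁻¹ * g * s, h.nrm' g.2⟩ (by
    have h2 : s * (s⁻¹ * (g : Γ) * s) * s⁻¹ = g := by group
    change s * (s⁻¹ * (g : Γ) * s) * s⁻¹ ∈ Δ
    rw [h2]
    exact g.2)
  have h3 : (⟨s * ((⟨s⁻¹ * g * s, h.nrm' g.2⟩ : Δ) : Γ) * s⁻¹, by
    have h2 : s * (s⁻¹ * (g : Γ) * s) * s⁻¹ = g := by group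
    change s * (s⁻¹ * (g : Γ) * s) * s⁻¹ ∈ Δ
    rw [h2]
    exact g.2⟩ : Δ) = g := by
    apply Subtype.ext
    change s * (s⁻¹ * (g : Γ) * s) * s⁻¹ = g
    group
  rw [h3] at h1
  rw [h1, inv_inv]

/-- the value `β(g)` for `g ∈ Δ`, and `β(s⁻¹ g)` otherwise -/
noncomputable def B (Δ : Subgroup Γ) (s : Γ) (β : Δ →* ℂˣ) (g : Γ) : ℂˣ :=
  if h : g ∈ Δ then β ⟨g, h⟩ else if h : s⁻¹ * g ∈ Δ then β ⟨s⁻¹ * g, h⟩ else 1

theorem B_mem {g : Γ} (hg : g ∈ Δ) : B Δ s β g = β ⟨g, hg⟩ := dif_pos hg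

theorem B_coe (g : Δ) : B Δ s β g = β g := dif_pos g.2

theorem DData.B_smul (h : DData Δ s β) (x : Δ) : B Δ s β (s * x) = β x := by
  have h1 := h.mul_not x.2
  have h2 : s⁻¹ * (s * (x : Γ)) ∈ Δ := by
    rw [inv_mul_cancel_left]
    exact x.2
  unfold B
  rw [dif_neg h1, dif_pos h2]
  congr 1
  apply Subtype.ext
  change s⁻¹ * (s * (x : Γ)) = x
  rw [inv_mul_cancel_left]

theorem DData.mul_mem_iff (h : DData Δ s β) (g g' : Γ) : g * g' ∈ Δ ↔ (g ∈ Δ ↔ g' ∈ Δ) := by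
  by_cases hg : g ∈ Δ
  · rw [Δ.mul_mem_cancel_left hg]
    exact ⟨fun h1 => ⟨fun _ => h1, fun _ => hg⟩, fun h1 => h1.1 hg⟩
  · by_cases hg' : g' ∈ Δ
    · rw [Δ.mul_mem_cancel_right hg']
      exact ⟨fun h1 => absurd h1 hg, fun h1 => h1.2 hg'⟩
    · refine ⟨fun _ => ⟨fun h1 => absurd h1 hg, fun h1 => absurd h1 hg'⟩, fun _ => ?_⟩
      obtain ⟨x, rfl⟩ := h.exists_eq hg
      obtain ⟨y, rfl⟩ := h.exists_eq hg'
      have h1 : s * (x : Γ) * (s * (y : Γ)) = (s * s) * (s⁻¹ * x * s) * y := by group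
      rw [h1]
      exact Δ.mul_mem (Δ.mul_mem h.smem (h.nrm' x.2)) y.2

/-- the map `g ↦ (B g, ±1)` is a homomorphism to a semidirect product -/
theorem DData.B_mul (h : DData Δ s β) (g g' : Γ) :
    B Δ s β (g * g') = (if g' ∈ Δ then B Δ s β g else (B Δ s β g)⁻¹) * B Δ s β g' := by
  by_cases hg' : g' ∈ Δ
  · rw [if_pos hg']
    by_cases hg : g ∈ Δ
    · rw [B_mem hg, B_mem hg', B_mem (Δ.mul_mem hg hg'), ← map_mul]
      rfl
    · obtain ⟨x, rfl⟩ := h.exists_eq hg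
      have h1 : s * (x : Γ) * g' = s * ((x * ⟨g', hg'⟩ : Δ) : Γ) := by
        change s * (x : Γ) * g' = s * ((x : Γ) * g')
        group
      rw [h1, h.B_smul, h.B_smul, B_mem hg', map_mul]
  · rw [if_neg hg']
    obtain ⟨y, rfl⟩ := h.exists_eq hg'
    by_cases hg : g ∈ Δ
    · have h1 : g * (s * (y : Γ)) = s * ((⟨s⁻¹ * g * s, h.nrm' hg⟩ * y : Δ) : Γ) := by
        change g * (s * (y : Γ)) = s * ((s⁻¹ * g * s) * (y : Γ))
        group
      rw [h1, h.B_smul, h.B_smul, B_mem hg, map_mul, ← h.inv' ⟨g, hg⟩]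
    · obtain ⟨x, rfl⟩ := h.exists_eq hg
      have h1 : s * (x : Γ) * (s * (y : Γ)) =
          ((⟨s * s, h.smem⟩ * ⟨s⁻¹ * x * s, h.nrm' x.2⟩ * y : Δ) : Γ) := by
        change s * (x : Γ) * (s * (y : Γ)) = (s * s) * (s⁻¹ * x * s) * y
        group
      rw [h1, B_coe, map_mul, map_mul, h.sq, one_mul, h.inv', h.B_smul, h.B_smul]

theorem DData.B_one (_ : DData Δ s β) : B Δ s β 1 = 1 := by
  rw [B_mem Δ.one_mem]
  exact map_one β

theorem DData.B_inv (h : DData Δ s β) (g : Γ) :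
    B Δ s β g⁻¹ = if g ∈ Δ then (B Δ s β g)⁻¹ else B Δ s β g := by
  have h1 := h.B_mul g g⁻¹
  rw [mul_inv_cancel, h.B_one] at h1
  by_cases hg : g ∈ Δ
  · rw [if_pos (Δ.inv_mem hg)] at h1
    rw [if_pos hg]
    exact eq_inv_of_mul_eq_one_right h1.symm
  · rw [if_neg (fun h2 => hg (by simpa using Δ.inv_mem h2))] at h1
    rw [if_neg hg]
    have h2 := eq_inv_of_mul_eq_one_right h1.symm
    rwa [inv_inv] at h2

/-- the subgroup generated by the kernel of `β` and the `s x` with `β(x) = b` -/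
noncomputable def Hb (h : DData Δ s β) (b : ℂˣ) : Subgroup Γ where
  carrier := {g | (g ∈ Δ ∧ B Δ s β g = 1) ∨ (g ∉ Δ ∧ B Δ s β g = b)}
  one_mem' := Or.inl ⟨Δ.one_mem, h.B_one⟩
  mul_mem' := by
    intro g g' hg hg'
    have h1 := h.mul_mem_iff g g'
    have h2 := h.B_mul g g'
    rcases hg with ⟨a1, a2⟩ | ⟨a1, a2⟩ <;> rcases hg' with ⟨b1, b2⟩ | ⟨b1, b2⟩
    · left
      exact ⟨Δ.mul_mem a1 b1, by rw [h2, if_pos b1, a2, b2, one_mul]⟩
    · right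
      exact ⟨fun h3 => b1 ((h1.1 h3).1 a1), by rw [h2, if_neg b1, a2, b2, inv_one, one_mul]⟩
    · right
      exact ⟨fun h3 => a1 ((h1.1 h3).2 b1), by rw [h2, if_pos b1, a2, b2, mul_one]⟩
    · left
      exact ⟨h1.2 ⟨fun h3 => absurd h3 a1, fun h3 => absurd h3 b1⟩, by
        rw [h2, if_neg b1, a2, b2, inv_mul_cancel]⟩
  inv_mem' := by
    intro g hg
    have h2 := h.B_inv g
    rcases hg with ⟨a1, a2⟩ | ⟨a1, a2⟩
    · left
      exact ⟨Δ.inv_mem a1, by rw [h2, if_pos a1, a2, inv_one]⟩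
    · right
      exact ⟨fun h3 => a1 (by simpa using Δ.inv_mem h3), by rw [h2, if_neg a1, a2]⟩

theorem mem_Hb (h : DData Δ s β) (b : ℂˣ) (g : Γ) :
    g ∈ Hb h b ↔ (g ∈ Δ ∧ B Δ s β g = 1) ∨ (g ∉ Δ ∧ B Δ s β g = b) := Iff.rfl

/-- the number of fixed points on `Γ ⧸ H` -/
noncomputable def fix (H : Subgroup Γ) (g : Γ) : ℂ :=
  ∑ᶠ x : Γ ⧸ H, if x.out⁻¹ * g * x.out ∈ H then 1 else 0

theorem conj_out {H : Subgroup Γ} (x g : Γ) :
    ((QuotientGroup.mk x : Γ ⧸ H).out⁻¹ * g * (QuotientGroup.mk x : Γ ⧸ H).out ∈ H) ↔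
      x⁻¹ * g * x ∈ H := by
  obtain ⟨k, hk⟩ := QuotientGroup.mk_out_eq_mul H x
  rw [hk]
  have h1 : (x * (k : Γ))⁻¹ * g * (x * k) = (k : Γ)⁻¹ * (x⁻¹ * g * x) * k := by group
  rw [h1]
  constructor
  · intro h2
    have h3 := H.mul_mem (H.mul_mem k.2 h2) (H.inv_mem k.2)
    have h4 : (k : Γ) * ((k : Γ)⁻¹ * (x⁻¹ * g * x) * k) * (k : Γ)⁻¹ = x⁻¹ * g * x := by group
    rwa [h4] at h3
  · intro h2
    exact H.mul_mem (H.mul_mem (H.inv_mem k.2) h2) k.2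

/-- `Γ ⧸ Hb` is parametrised by the image of `β` -/
theorem Hb_bij (h : DData Δ s β) {b : ℂˣ} (hb : b ∈ β.range) :
    Function.Bijective fun y : β.range =>
      (QuotientGroup.mk ((y.2.choose : Δ) : Γ) : Γ ⧸ Hb h b) := by
  have hβ : ∀ y : β.range, β y.2.choose = y := fun y => y.2.choose_spec
  constructor
  · intro y y' hy
    have h1 : ((y.2.choose : Δ) : Γ)⁻¹ * ((y'.2.choose : Δ) : Γ) ∈ Hb h b :=
      QuotientGroup.eq.1 hy
    have h2 : ((y.2.choose : Δ) : Γ)⁻¹ * ((y'.2.choose : Δ) : Γ) ∈ Δ :=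
      Δ.mul_mem (Δ.inv_mem (y.2.choose : Δ).2) (y'.2.choose : Δ).2
    rw [mem_Hb] at h1
    rcases h1 with ⟨-, h1⟩ | ⟨h1, -⟩
    · have h3 : B Δ s β (((y.2.choose : Δ) : Γ)⁻¹ * ((y'.2.choose : Δ) : Γ)) =
          β ((y.2.choose : Δ)⁻¹ * (y'.2.choose : Δ)) := B_mem h2
      rw [h3, map_mul, map_inv, hβ, hβ] at h1
      exact Subtype.ext (inv_mul_eq_one.1 h1)
    · exact absurd h2 h1
  · intro q
    obtain ⟨g, rfl⟩ := QuotientGroup.mk_surjective q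
    -- a representative in `Δ`
    have h1 : ∃ x : Δ, (QuotientGroup.mk g : Γ ⧸ Hb h b) = QuotientGroup.mk (x : Γ) := by
      by_cases hg : g ∈ Δ
      · exact ⟨⟨g, hg⟩, rfl⟩
      · obtain ⟨c, hc⟩ := hb
        have ht : s * (c : Γ) ∈ Hb h b := Or.inr ⟨h.mul_not c.2, by rw [h.B_smul, hc]⟩
        have h2 : g * (s * (c : Γ)) ∈ Δ := (h.mul_mem_iff _ _).2
          ⟨fun h3 => absurd h3 hg, fun h3 => absurd h3 (h.mul_not c.2)⟩
        refine ⟨⟨g * (s * c), h2⟩, ?_⟩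
        rw [QuotientGroup.eq]
        change g⁻¹ * (g * (s * (c : Γ))) ∈ Hb h b
        rwa [inv_mul_cancel_left]
    obtain ⟨x, hx⟩ := h1
    refine ⟨⟨β x, x, rfl⟩, ?_⟩
    rw [hx]
    change (QuotientGroup.mk _ : Γ ⧸ Hb h b) = _
    rw [QuotientGroup.eq, mem_Hb]
    left
    have h2 := hβ ⟨β x, x, rfl⟩
    generalize (⟨β x, x, rfl⟩ : β.range).2.choose = c at h2
    have h3 : (c : Γ)⁻¹ * (x : Γ) ∈ Δ := Δ.mul_mem (Δ.inv_mem c.2) x.2
    refine ⟨h3, ?_⟩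
    have h4 : B Δ s β ((c : Γ)⁻¹ * (x : Γ)) = β (c⁻¹ * x) := B_mem h3
    rw [h4, map_mul, map_inv, h2]
    exact inv_mul_cancel _

theorem Hb_fix (h : DData Δ s β) {b : ℂˣ} (hb : b ∈ β.range) (g : Γ) :
    fix (Hb h b) g = if g ∈ Δ then (if B Δ s β g = 1 then (Nat.card β.range : ℂ) else 0) else
      (Nat.card {y : β.range // (y : ℂˣ) ^ 2 * B Δ s β g = b} : ℂ) := by
  have hfin : Finite β.range := h.fin
  have hft : Fintype β.range := Fintype.ofFinite _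
  have hβ : ∀ y : β.range, β y.2.choose = y := fun y => y.2.choose_spec
  have h1 : fix (Hb h b) g = ∑ᶠ y : β.range, if ((y.2.choose : Δ) : Γ)⁻¹ * g *
      ((y.2.choose : Δ) : Γ) ∈ Hb h b then (1 : ℂ) else 0 := by
    unfold fix
    refine (finsum_eq_of_bijective _ (Hb_bij h hb) fun y => ?_).symm
    exact if_congr (conj_out _ _).symm rfl rfl
  rw [h1, finsum_eq_sum_of_fintype, Finset.sum_boole]
  by_cases hg : g ∈ Δ
  · rw [if_pos hg]
    have h2 : ∀ y : β.range, (((y.2.choose : Δ) : Γ)⁻¹ * g * ((y.2.choose : Δ) : Γ) ∈ Hb h b) ↔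
        B Δ s β g = 1 := by
      intro y
      generalize (y.2.choose : Δ) = c
      have h3 : (c : Γ)⁻¹ * g * (c : Γ) ∈ Δ := Δ.mul_mem (Δ.mul_mem (Δ.inv_mem c.2) hg) c.2
      have h4 : B Δ s β ((c : Γ)⁻¹ * g * (c : Γ)) = B Δ s β g := by
        have h5 : B Δ s β ((c : Γ)⁻¹ * g * (c : Γ)) = β (c⁻¹ * ⟨g, hg⟩ * c) := B_mem h3
        rw [h5, map_mul, map_mul, map_inv, B_mem hg, mul_comm, ← mul_assoc, mul_inv_cancel, one_mul]
      rw [mem_Hb, h4]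
      constructor
      · rintro (⟨-, h6⟩ | ⟨h6, -⟩)
        · exact h6
        · exact absurd h3 h6
      · exact fun h6 => Or.inl ⟨h3, h6⟩
    simp only [h2]
    by_cases h3 : B Δ s β g = 1
    · rw [if_pos h3]
      simp only [h3, Finset.filter_true, Finset.card_univ, Nat.card_eq_fintype_card]
    · rw [if_neg h3]
      simp only [h3, Finset.filter_false, Finset.card_empty, Nat.cast_zero]
  · rw [if_neg hg]
    have h2 : ∀ y : β.range, (((y.2.choose : Δ) : Γ)⁻¹ * g * ((y.2.choose : Δ) : Γ) ∈ Hb h b) ↔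
        (y : ℂˣ) ^ 2 * B Δ s β g = b := by
      intro y
      have h2 := hβ y
      generalize (y.2.choose : Δ) = c at h2
      have h3 : (c : Γ)⁻¹ * g * (c : Γ) ∉ Δ := by
        intro h4
        have h5 := Δ.mul_mem (Δ.mul_mem c.2 h4) (Δ.inv_mem c.2)
        have h6 : (c : Γ) * ((c : Γ)⁻¹ * g * (c : Γ)) * (c : Γ)⁻¹ = g := by group
        rw [h6] at h5
        exact hg h5
      have h4 : B Δ s β ((c : Γ)⁻¹ * g * (c : Γ)) = (y : ℂˣ) ^ 2 * B Δ s β g := by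
        rw [h.B_mul, if_pos c.2, h.B_mul, if_neg hg, B_coe, h2]
        have h5 : B Δ s β (c : Γ)⁻¹ = (y : ℂˣ)⁻¹ := by
          rw [h.B_inv, if_pos c.2, B_coe, h2]
        rw [h5, inv_inv, sq]
        exact mul_right_comm _ _ _
      rw [mem_Hb, h4]
      constructor
      · rintro (⟨h6, -⟩ | ⟨-, h6⟩)
        · exact absurd h6 h3
        · exact h6
      · exact fun h6 => Or.inr ⟨h3, h6⟩
    simp only [h2]
    congr 1
    rw [Nat.card_eq_fintype_card, Fintype.card_subtype]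

end Pool.Agent.Q20.EX.Dih
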