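import Pool.Agent.Q20.EX.Dih

/-!
# The dihedral identity of permutation characters, second part
-/

set_option autoImplicit false
set_option linter.unusedSectionVars false

namespace Pool.Agent.Q20.EX.Dih

open scoped Classical

section cyclic
variable {G : Type} [CommGroup G] [Finite G]

theorem card_sol {c d y : G} (hy : y ^ 2 * c = d) :
    Nat.card {y : G // y ^ 2 * c = d} = Nat.card {z : G // z ^ 2 = 1} := by
  refine Nat.card_congr
    { toFun := fun z => ⟨z.1 * y⁻¹, ?_⟩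
      invFun := fun z => ⟨z.1 * y, ?_⟩
      left_inv := fun z => Subtype.ext (by simp)
      right_inv := fun z => Subtype.ext (by simp) }
  · have h1 := z.2
    rw [mul_pow, inv_pow]
    have h2 : z.1 ^ 2 * c = y ^ 2 * c := by rw [h1, hy]
    rw [mul_right_cancel h2, mul_inv_cancel]
  · rw [mul_pow, z.2, one_mul, hy]

theorem card_one_of_inj (h : ∀ z : G, z ^ 2 = 1 → z = 1) : Nat.card {z : G // z ^ 2 = 1} = 1 := by
  rw [Nat.card_eq_one_iff_unique]
  exact ⟨⟨fun a b => Subtype.ext (by rw [h a a.2, h b b.2])⟩, ⟨⟨1, one_pow 2⟩⟩⟩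

theorem two_sol (b : G) (hb : ∀ x : G, x ∈ Subgroup.zpowers b) (c : G) :
    Nat.card {y : G // y ^ 2 * c = 1} + Nat.card {y : G // y ^ 2 * c = b} = 2 := by
  have hcyc : IsCyclic G := ⟨b, hb⟩
  have hle : Nat.card {z : G // z ^ 2 = 1} ≤ 2 := by
    have hft : Fintype G := Fintype.ofFinite G
    have h1 := IsCyclic.card_pow_eq_one_le (α := G) (n := 2) (by norm_num)
    rw [Nat.card_eq_fintype_card, Fintype.card_subtype]
    convert h1
  -- `b` is not a square if the squaring is not injective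
  have key : (∃ y : G, y ^ 2 = b) → ∀ z : G, z ^ 2 = 1 → z = 1 := by
    rintro ⟨y, hy⟩
    have hs : Function.Surjective fun z : G => z ^ 2 := by
      intro x
      obtain ⟨k, rfl⟩ := Subgroup.mem_zpowers_iff.1 (hb x)
      refine ⟨y ^ k, ?_⟩
      change (y ^ k) ^ 2 = b ^ k
      rw [← hy, ← zpow_natCast, ← zpow_natCast, ← zpow_mul, ← zpow_mul, mul_comm]
    have hi : Function.Injective fun z : G => z ^ 2 := Finite.injective_iff_surjective.2 hs
    intro z hz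
    exact hi (by change z ^ 2 = 1 ^ 2; rw [hz, one_pow])
  have key2 : (∀ z : G, z ^ 2 = 1 → z = 1) → ∀ x : G, ∃ y : G, y ^ 2 = x := by
    intro h
    have hi : Function.Injective fun z : G => z ^ 2 := by
      intro x y hxy
      have h1 : (x * y⁻¹) ^ 2 = 1 := by
        have h2 : x ^ 2 = y ^ 2 := hxy
        rw [mul_pow, inv_pow, h2, mul_inv_cancel]
      exact mul_inv_eq_one.1 (h _ h1)
    intro x
    obtain ⟨y, hy⟩ := (Finite.injective_iff_surjective.1 hi) x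
    exact ⟨y, hy⟩
  have hempty : ∀ d : G, (¬ ∃ y : G, y ^ 2 * c = d) → Nat.card {y : G // y ^ 2 * c = d} = 0 := by
    intro d hd
    have : IsEmpty {y : G // y ^ 2 * c = d} := ⟨fun y => hd ⟨y.1, y.2⟩⟩
    exact Nat.card_of_isEmpty
  have hpos : 0 < Nat.card {z : G // z ^ 2 = 1} := by
    have : Nonempty {z : G // z ^ 2 = 1} := ⟨⟨1, one_pow 2⟩⟩
    exact Nat.card_pos
  have htwo : (¬ ∃ y : G, y ^ 2 = b) → Nat.card {z : G // z ^ 2 = 1} = 2 := by
    intro h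
    by_contra h1
    have h2 : Nat.card {z : G // z ^ 2 = 1} = 1 := by omega
    rw [Nat.card_eq_one_iff_unique] at h2
    obtain ⟨⟨h2⟩, -⟩ := h2
    have h3 : ∀ z : G, z ^ 2 = 1 → z = 1 := fun z hz =>
      congrArg Subtype.val (h2 ⟨z, hz⟩ ⟨1, one_pow 2⟩)
    exact h (key2 h3 b)
  by_cases h1 : ∃ y : G, y ^ 2 * c = 1
  · obtain ⟨y₁, hy₁⟩ := h1
    by_cases h2 : ∃ y : G, y ^ 2 * c = b
    · obtain ⟨y₂, hy₂⟩ := h2
      have h3 : (y₂ * y₁⁻¹) ^ 2 = b := by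
        have h4 : y₁ ^ 2 = c⁻¹ := eq_inv_of_mul_eq_one_left hy₁
        rw [mul_pow, inv_pow, h4, inv_inv, hy₂]
      rw [card_sol hy₁, card_sol hy₂, card_one_of_inj (key ⟨_, h3⟩)]
    · rw [card_sol hy₁, hempty b h2]
      have h3 : ¬ ∃ y : G, y ^ 2 = b := by
        rintro ⟨y, hy⟩
        exact h2 ⟨y * y₁, by rw [mul_pow, hy, mul_assoc, hy₁, mul_one]⟩
      rw [htwo h3]
  · by_cases h2 : ∃ y : G, y ^ 2 * c = b
    · obtain ⟨y₂, hy₂⟩ := h2
      rw [card_sol hy₂, hempty 1 h1]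
      have h3 : ¬ ∃ y : G, y ^ 2 = b := by
        rintro ⟨y, hy⟩
        refine h1 ⟨y₂ * y⁻¹, ?_⟩
        rw [mul_pow, inv_pow, hy, mul_right_comm, hy₂, mul_inv_cancel]
      rw [htwo h3]
    · exfalso
      obtain ⟨k, hk⟩ := Subgroup.mem_zpowers_iff.1 (hb c)
      rcases Int.even_or_odd' k with ⟨m, hm | hm⟩
      · apply h1
        refine ⟨b ^ (-m), ?_⟩
        rw [← hk, hm, ← zpow_natCast, ← zpow_mul, ← zpow_add]
        have h3 : -m * ((2 : ℕ) : ℤ) + 2 * m = 0 := by push_cast; ring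
        rw [h3, zpow_zero]
      · apply h2
        refine ⟨b ^ (-m), ?_⟩
        rw [← hk, hm, ← zpow_natCast, ← zpow_mul, ← zpow_add]
        have h3 : -m * ((2 : ℕ) : ℤ) + (2 * m + 1) = 1 := by push_cast; ring
        rw [h3, zpow_one]

end cyclic

variable {Γ : Type} [Group Γ] {Δ : Subgroup Γ} {s : Γ} {β : Δ →* ℂˣ}

/-- the kernel of `β` -/
noncomputable def H3 (Δ : Subgroup Γ) (β : Δ →* ℂˣ) : Subgroup Γ := β.ker.map Δ.subtype

theorem mem_H3 (g : Γ) : g ∈ H3 Δ β ↔ ∃ h : g ∈ Δ, β ⟨g, h⟩ = 1 := by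
  constructor
  · rintro ⟨x, hx, rfl⟩
    exact ⟨x.2, hx⟩
  · rintro ⟨h, h1⟩
    exact ⟨⟨g, h⟩, h1, rfl⟩

theorem mem_H3' (h : DData Δ s β) (g : Γ) : g ∈ H3 Δ β ↔ g ∈ Δ ∧ B Δ s β g = 1 := by
  rw [mem_H3]
  constructor
  · rintro ⟨h1, h2⟩
    exact ⟨h1, by rw [B_mem h1, h2]⟩
  · rintro ⟨h1, h2⟩
    exact ⟨h1, by rwa [B_mem h1] at h2⟩

theorem index_two (h : DData Δ s β) : Δ.index = 2 := by
  rw [Subgroup.index_eq_two_iff]
  refine ⟨s, fun g => ?_⟩
  rw [h.mul_mem_iff]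
  by_cases hg : g ∈ Δ
  · exact Or.inr ⟨hg, fun h1 => h.not (h1.1 hg)⟩
  · exact Or.inl ⟨⟨fun h1 => absurd h1 hg, fun h1 => absurd h1 h.not⟩, hg⟩

theorem H3_index (h : DData Δ s β) : (H3 Δ β).index = 2 * Nat.card β.range := by
  unfold H3
  rw [Subgroup.index_map_subtype, index_two h, Subgroup.index_ker, mul_comm]

theorem H3_fix (h : DData Δ s β) (g : Γ) :
    fix (H3 Δ β) g = if g ∈ Δ ∧ B Δ s β g = 1 then (2 * Nat.card β.range : ℂ) else 0 := by
  have hfin : Finite β.range := h.fin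
  have hidx := H3_index h
  have hpos : 0 < Nat.card β.range := Nat.card_pos
  have hfi : (H3 Δ β).FiniteIndex := ⟨by rw [hidx]; omega⟩
  have hfq : Finite (Γ ⧸ H3 Δ β) := Subgroup.finite_quotient_of_finiteIndex
  have hft : Fintype (Γ ⧸ H3 Δ β) := Fintype.ofFinite _
  have h1 : ∀ x : Γ, x⁻¹ * g * x ∈ H3 Δ β ↔ (g ∈ Δ ∧ B Δ s β g = 1) := by
    intro x
    rw [mem_H3' h]
    have h2 : x⁻¹ * g * x ∈ Δ ↔ g ∈ Δ := by
      rw [h.mul_mem_iff, h.mul_mem_iff]
      have h3 : x⁻¹ ∈ Δ ↔ x ∈ Δ := Δ.inv_mem_iff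
      tauto
    rw [h2]
    refine and_congr_right fun hg => ?_
    rw [h.B_mul, h.B_mul, if_pos hg, h.B_inv]
    by_cases hx : x ∈ Δ
    · rw [if_pos hx, if_pos hx]
      rw [mul_right_comm, inv_mul_cancel, one_mul]
    · rw [if_neg hx, if_neg hx, mul_inv, mul_right_comm, inv_mul_cancel, one_mul, inv_eq_one]
  unfold fix
  simp only [h1]
  rw [finsum_eq_sum_of_fintype, Finset.sum_const, Finset.card_univ, ← Nat.card_eq_fintype_card]
  have h2 : Nat.card (Γ ⧸ H3 Δ β) = 2 * Nat.card β.range := by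
    rw [← hidx]
    rfl
  rw [h2]
  split_ifs
  · simp
  · simp

/-- **The identity** -/
theorem identity (h : DData Δ s β) {b : ℂˣ} (hb : b ∈ β.range)
    (hgen : ∀ y ∈ β.range, y ∈ Subgroup.zpowers b) (g : Γ) :
    (if g ∈ Δ then (1 : ℂ) else -1) + (fix (Hb h 1) g + fix (Hb h b) g) =
      1 + fix (H3 Δ β) g := by
  have hfin : Finite β.range := h.fin
  rw [Hb_fix h β.range.one_mem, Hb_fix h hb, H3_fix h]
  by_cases hg : g ∈ Δ
  · rw [if_pos hg, if_pos hg, if_pos hg]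
    by_cases h1 : B Δ s β g = 1
    · rw [if_pos h1, if_pos ⟨hg, h1⟩]
      ring
    · rw [if_neg h1, if_neg fun h2 => h1 h2.2]
      ring
  · rw [if_neg hg, if_neg hg, if_neg hg, if_neg fun h2 => hg h2.1]
    have hB : B Δ s β g ∈ β.range := by
      obtain ⟨x, rfl⟩ := h.exists_eq hg
      rw [h.B_smul]
      exact ⟨x, rfl⟩
    have h1 := two_sol (⟨b, hb⟩ : β.range) (fun x => by
      obtain ⟨k, hk⟩ := Subgroup.mem_zpowers_iff.1 (hgen x x.2)
      exact Subgroup.mem_zpowers_iff.2 ⟨k, Subtype.ext hk⟩) ⟨B Δ s β g, hB⟩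
    have e1 : Nat.card {y : β.range // (y : ℂˣ) ^ 2 * B Δ s β g = 1} =
        Nat.card {y : β.range // y ^ 2 * (⟨B Δ s β g, hB⟩ : β.range) = 1} :=
      Nat.card_congr (Equiv.subtypeEquivRight fun y => by rw [Subtype.ext_iff]; rfl)
    have e2 : Nat.card {y : β.range // (y : ℂˣ) ^ 2 * B Δ s β g = b} =
        Nat.card {y : β.range // y ^ 2 * (⟨B Δ s β g, hB⟩ : β.range) = ⟨b, hb⟩} :=
      Nat.card_congr (Equiv.subtypeEquivRight fun y => by rw [Subtype.ext_iff]; rfl)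
    rw [e1, e2, ← Nat.cast_add, h1]
    norm_num

end Pool.Agent.Q20.EX.Dih
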