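import Pool.Agent.Q20.EX.Gen0
import Pool.Agent.Q16.EX.Kum

/-!
# Job K4: an `S`-unit which is locally an `n`-th power at `S` is an `n`-th power
-/

set_option autoImplicit false
set_option linter.unusedSectionVars false
set_option linter.deprecated false

namespace Pool.Agent.Q20.EX

open NumberField IsDedekindDomain Pool.Agent.Q5.BR Pool.Agent.Q92.AR Pool.Agent.Q125.AR Polynomial
open Pool.Agent.Q16.EX

section
variable {F M : Type} [Field F] [NumberField F] [Field M] [NumberField M] [Algebra F M]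

theorem no_real {n : ℕ} {ζ : F} (hn : 2 < n) (hζ : IsPrimitiveRoot ζ n) (x : F) : Pos x := by
  intro φ
  exfalso
  have h1 : IsPrimitiveRoot (φ ζ) n := hζ.map_of_injective φ.injective
  have h2 : (φ ζ) ^ n = 1 := h1.pow_eq_one
  have h3 : |φ ζ| = 1 := by
    have h4 : |φ ζ| ^ n = 1 := by rw [← abs_pow, h2, abs_one]
    exact (pow_eq_one_iff_of_nonneg (abs_nonneg _) (by omega)).1 h4
  have h5 : (φ ζ) ^ 2 = 1 := by rw [← sq_abs, h3, one_pow]
  have h6 := h1.dvd_of_pow_eq_one 2 h5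
  exact absurd (Nat.le_of_dvd (by norm_num) h6) (by omega)

/-- the norm of the part of a divisor prime to `N` -/
theorem nmD_filter (N : ℕ) (Y : Dv M) (v : HeightOneSpectrum (𝓞 F)) (hv : (N : 𝓞 F) ∉ v.asIdeal) :
    ∀ (Z : Dv M), (∀ w, (N : 𝓞 M) ∉ w.asIdeal → Z w = Y w) →
      nmD F M Z v = nmD F M Y v := by
  classical
  intro Z hZ
  rw [← sub_eq_zero]
  have h1 : nmD F M Z v - nmD F M Y v = nmD F M (Z - Y) v := by
    rw [map_sub]
    rfl
  rw [h1]
  have h2 : ∀ W : Dv M, (∀ w, (N : 𝓞 M) ∉ w.asIdeal → W w = 0) → nmD F M W v = 0 := by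
    intro W hW
    unfold nmD
    rw [Finsupp.liftAddHom_apply, Finsupp.sum, Finsupp.finset_sum_apply]
    refine Finset.sum_eq_zero fun w hw => ?_
    have h3 : (N : 𝓞 M) ∈ w.asIdeal := by
      by_contra h
      exact (Finsupp.mem_support_iff.1 hw) (hW w h)
    change (Finsupp.single (w.under (𝓞 F)) ((rdeg F w : ℤ) * W w)) v = 0
    refine Finsupp.single_eq_of_ne ?_
    rintro rfl
    exact hv (mem_under.2 h3)
  exact h2 _ fun w hw => by rw [Finsupp.sub_apply, hZ w hw, sub_self]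

theorem nmD_filter' (N : ℕ) (v : HeightOneSpectrum (𝓞 F)) (hv : (N : 𝓞 F) ∈ v.asIdeal) :
    ∀ (Z : Dv M), (∀ w, (N : 𝓞 M) ∈ w.asIdeal → Z w = 0) → nmD F M Z v = 0 := by
  classical
  intro W hW
  unfold nmD
  rw [Finsupp.liftAddHom_apply, Finsupp.sum, Finsupp.finset_sum_apply]
  refine Finset.sum_eq_zero fun w hw => ?_
  change (Finsupp.single (w.under (𝓞 F)) ((rdeg F w : ℤ) * W w)) v = 0
  refine Finsupp.single_eq_of_ne ?_
  rintro rfl
  exact (Finsupp.mem_support_iff.1 hw) (hW w (mem_under.1 hv))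

end

/-- **Job K4.** -/
theorem k4 : S_K4 := by
  classical
  intro hNRM hSPL F _ _ n N1 ζ hn2 hζ hN1 hnN hcl a ha hloc
  have hn0 : n ≠ 0 := by omega
  let f : F[X] := X ^ n - C (a : F)
  have hf0 : f ≠ 0 := X_pow_sub_C_ne_zero (by omega) _
  let M : Type := f.SplittingField
  have hMf : FiniteDimensional F M := inferInstance
  have hMn : NumberField M := NumberField.of_module_finite F M
  have hnor : Normal F M := Normal.of_isSplittingField f
  have hgal : IsGalois F M := ⟨⟩
  have hinj : Function.Injective (algebraMap F M) := FaithfulSMul.algebraMap_injective F M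
  obtain ⟨r, hr⟩ : ∃ r : M, r ^ n = algebraMap F M (a : F) := by
    have h1 : (f.map (algebraMap F M)).Splits := SplittingField.splits f
    have h2 : (f.map (algebraMap F M)).degree ≠ 0 := by
      rw [degree_map, degree_X_pow_sub_C (by omega)]
      exact_mod_cast hn0
    obtain ⟨r, hr⟩ := h1.exists_eval_eq_zero h2
    refine ⟨r, ?_⟩
    rw [eval_map, eval₂_sub, eval₂_X_pow, eval₂_C, sub_eq_zero] at hr
    exact hr
  have hr0 : r ≠ 0 := by
    rintro rfl
    rw [zero_pow hn0] at hr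
    exact a.ne_zero ((map_eq_zero_iff _ hinj).1 hr.symm)
  have : NeZero n := ⟨hn0⟩
  have hζM : IsPrimitiveRoot (algebraMap F M ζ) n := hζ.map_of_injective hinj
  have hfix : ∀ (c : M), c ^ n = 1 → ∀ g : M ≃ₐ[F] M, g c = c := by
    intro c hc g
    obtain ⟨i, -, rfl⟩ := hζM.eq_pow_of_pow_eq_one hc
    rw [map_pow, g.commutes]
  -- elements which fix `r`
  have hone : ∀ g : M ≃ₐ[F] M, g r = r → g = 1 := by
    intro g hg
    have h1 : ∀ x ∈ f.rootSet M, g x = x := by
      intro x hx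
      have h2 : aeval x f = 0 := (mem_rootSet.1 hx).2
      rw [map_sub, map_pow, aeval_X, aeval_C, sub_eq_zero] at h2
      have h3 : (x / r) ^ n = 1 := by
        rw [div_pow, h2, hr, div_self]
        rw [← hr]
        exact pow_ne_zero _ hr0
      have h4 := hfix _ h3 g
      rw [map_div₀, hg, div_left_inj' hr0] at h4
      exact h4
    have h2 : (g : M →ₐ[F] M) = AlgHom.id F M := by
      refine AlgHom.ext_of_adjoin_eq_top (SplittingField.adjoin_rootSet f) fun x hx => ?_
      exact h1 x hx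
    ext x
    exact DFunLike.congr_fun h2 x
  -- the Kummer character
  obtain ⟨ι⟩ : Nonempty (M →+* ℂ) := inferInstance
  let ru : Mˣ := Units.mk0 r hr0
  have hH : ∀ h : M ≃ₐ[F] M, (h (ru : M) / (ru : M)) ^ n = 1 := by
    intro h
    change (h r / r) ^ n = 1
    rw [div_pow, ← map_pow, hr, h.commutes, div_self]
    rw [← hr]
    exact pow_ne_zero _ hr0
  have hK : ∀ g h : M ≃ₐ[F] M, g (h (ru : M) / (ru : M)) = h (ru : M) / (ru : M) :=
    fun g h => hfix _ (hH h) g
  let κ : (M ≃ₐ[F] M) →* ℂˣ := kumHom ι ru hK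
  have hκ : ∀ g, ((κ g : ℂˣ) : ℂ) = ι (g r / r) := fun g => kumHom_apply ι ru hK g
  have hκinj : Function.Injective κ := by
    rw [injective_iff_map_eq_one]
    intro g hg
    apply hone
    have h1 := hκ g
    rw [hg, Units.val_one] at h1
    have h2 : ι (g r / r) = ι 1 := by rw [← h1, map_one]
    have h3 := ι.injective h2
    rwa [div_eq_one_iff_eq hr0] at h3
  have hRam1 : Ram F M N1 := by
    intro v hv
    by_contra hN
    apply hv
    refine unr_of_inertia v fun w hw g hg => hone g ?_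
    refine fix_root hn0 hnN ?_ hg ha hr
    rw [hw]
    exact hN
  obtain ⟨N2, hN2, hRam2, hray⟩ := recip F M κ
  have hN : N1 * N2 ≠ 0 := mul_ne_zero hN1 hN2
  have hRam : Ram F M (N1 * N2) := Ram_mono (dvd_mul_right N1 N2) hRam1
  have hsplit : ∀ v ∈ primesOf F N1, Split M v := by
    intro v hv
    obtain ⟨y, hy⟩ := hloc v hv
    exact hSPL F M n ζ (by omega) hζ a y r hr (fun g hg => hone g hg) v hy
  have hker : ∀ D ∈ Pr F (N1 * N2), art κ D = 0 := by
    intro D hD
    obtain ⟨x, hx⟩ := hcl D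
    have hxu : ∀ v : HeightOneSpectrum (𝓞 F), ((N1 * N2 : ℕ) : 𝓞 F) ∈ v.asIdeal →
        (N1 : 𝓞 F) ∉ v.asIdeal → v.valuation F (x : F) = 1 := by
      intro v hv hv1
      have h1 := hx v hv1
      rw [Finsupp.sub_apply, hD v hv, zero_sub, neg_eq_zero] at h1
      rw [valuation_eq_exp, h1, neg_zero, WithZero.exp_zero]
    obtain ⟨y, hy1, hy2, hy3, hy4⟩ := hNRM F M (N1 * N2) x hN fun v hv => by
      by_cases hv1 : (N1 : 𝓞 F) ∈ v.asIdeal
      · exact Or.inr (Or.inl (hsplit v hv1))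
      · refine Or.inr (Or.inr ⟨?_, hxu v hv hv1⟩)
        by_contra h
        exact hv1 (hRam1 v h)
    have hxy : x / nu F M y ∈ Ray F (N1 * N2) := by
      refine ⟨?_, no_real hn2 hζ _⟩
      rw [Units.val_div_eq_div_val]
      exact hy3
    have h1 : art κ (prin (x / nu F M y)) = 0 := hray _ (Ray_mono (dvd_mul_left N2 N1) hxy)
    let Y : Dv M := (prin y).filter fun w => (N1 : 𝓞 M) ∉ w.asIdeal
    have hY1 : ∀ w, (N1 : 𝓞 M) ∉ w.asIdeal → Y w = prin y w := fun w hw =>
      Finsupp.filter_apply_pos (fun w : HeightOneSpectrum (𝓞 M) => (N1 : 𝓞 M) ∉ w.asIdeal) _ hw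
    have hY2 : ∀ w, (N1 : 𝓞 M) ∈ w.asIdeal → Y w = 0 := fun w hw =>
      Finsupp.filter_apply_neg (fun w : HeightOneSpectrum (𝓞 M) => (N1 : 𝓞 M) ∉ w.asIdeal) _
        (fun h => h hw)
    have hYP : Y ∈ Pr M (N1 * N2) := by
      intro w hw
      by_cases hw1 : (N1 : 𝓞 M) ∈ w.asIdeal
      · exact hY2 w hw1
      · rw [hY1 w hw1]
        refine prin_eq_zero_of_valuation (hy4 w hw (hxu _ (mem_under.2 hw) fun h => hw1
          (mem_under.1 h)))
    have hD' : D = prin (x / nu F M y) + nmD F M Y := by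
      ext v
      rw [Finsupp.add_apply, prin_div, Finsupp.sub_apply]
      by_cases hv1 : (N1 : 𝓞 F) ∈ v.asIdeal
      · have hv : ((N1 * N2 : ℕ) : 𝓞 F) ∈ v.asIdeal := nat_mem (dvd_mul_right N1 N2) hv1
        have h2 := prin_mem_Pr hxy v hv
        rw [prin_div, Finsupp.sub_apply] at h2
        rw [h2, nmD_filter' N1 v hv1 Y hY2, hD v hv, add_zero]
      · rw [nmD_filter N1 (prin y) v hv1 Y hY1, (Pool.Agent.Q106.AR.nm F M).1 y]
        have h2 := hx v hv1
        rw [Finsupp.sub_apply, sub_eq_zero] at h2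
        rw [h2]
        ring
    rw [hD', map_add, h1, (all_NKer F M κ (N1 * N2) hN).1 hRam Y hYP, add_zero]
  have hfr := (all_NKer F M κ (N1 * N2) hN).2 hκinj
  have hrel : (art κ).ker.relIndex (Pr F (N1 * N2)) = 1 := by
    rw [AddSubgroup.relIndex_eq_one]
    exact fun D hD => AddMonoidHom.mem_ker.2 (hker D hD)
  rw [hrel] at hfr
  have hbot : (⊥ : IntermediateField F M) = ⊤ := by
    exact (IntermediateField.finrank_eq_one_iff_eq_top.1 (by
      rw [IntermediateField.finrank_bot']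
      exact hfr.symm))
  have hrb : r ∈ (⊥ : IntermediateField F M) := by
    rw [hbot]
    exact IntermediateField.mem_top
  rw [IntermediateField.mem_bot] at hrb
  obtain ⟨t, ht⟩ := hrb
  have ht0 : t ≠ 0 := by
    rintro rfl
    rw [map_zero] at ht
    exact hr0 ht.symm
  refine ⟨Units.mk0 t ht0, Units.ext ?_⟩
  rw [Units.val_pow_eq_pow_val, Units.val_mk0]
  apply hinj
  rw [map_pow, ht, hr]

end Pool.Agent.Q20.EX
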